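import Pool.Agent.Lib.MP_858715_lc.Reduce

/-!
# The reduction from `k`-Clique
-/

namespace Pool.Agent.Lib.MP_858715_lc

theorem tgt_nonneg (n k : ℕ) : 0 ≤ tgt n k := by
  rw [tgt_eq]
  exact Finset.sum_nonneg fun i _ => mul_nonneg (Int.natCast_nonneg _) (wt_nonneg _ _ _)

theorem sets_good (n k : ℕ) (l : List Bool) : ∀ s ∈ sets n k l,
    s.Pairwise (· < ·) ∧ ∀ v ∈ s, 0 ≤ v ∧ v ≤ tgt n k := by
  intro s hs
  unfold sets at hs
  rw [List.mem_map] at hs
  obtain ⟨p, _, rfl⟩ := hs
  exact ⟨clean_pairwise _ _, fun v hv => (mem_clean.1 hv).2⟩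

/-- The instance of geometric packing produced from `n`, `k` and the bits of the matrix. -/
def mkInst (n k : ℕ) (l : List Bool) : Inst where
  C := cont (sets n k l).length (tgt n k)
  pieces := (sets n k l).map (piece (sets n k l).length (tgt n k))
  simpleC := simple_shape (good_cont (tgt_nonneg n k))
  simpleP := by
    intro P hP
    rw [List.mem_map] at hP
    obtain ⟨s, hs, rfl⟩ := hP
    have := sets_good n k l s hs
    exact simple_shape (good_piece (tgt_nonneg n k) this.1 this.2)

theorem length_sets (n k : ℕ) (l : List Bool) : (sets n k l).length = k + k.choose 2 := by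
  unfold sets
  rw [List.length_map, length_idx]

open Classical in
/-- The bits of the adjacency matrix. -/
noncomputable def CliqueInst.bits (I : CliqueInst) : List Bool :=
  (List.ofFn fun i => List.ofFn fun j => decide (I.G.Adj i j)).flatten

open Classical in
theorem adjB_bits (I : CliqueInst) {a b : ℕ} (ha : a < I.n) (hb : b < I.n) :
    adjB I.n I.bits a b = decide (I.G.Adj ⟨a, ha⟩ ⟨b, hb⟩) := by
  have h1 : I.bits = List.ofFn (n := I.n * I.n)
      fun d => decide (I.G.Adj (Fin.divNat d) (Fin.modNat d)) := by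
    unfold CliqueInst.bits
    rw [List.ofFn_mul]
    congr 1
    refine congrArg List.ofFn (funext fun i => congrArg List.ofFn (funext fun j => ?_))
    have hn : 0 < I.n := Nat.pos_of_ne_zero fun h => by have := i.2; omega
    congr 2
    · refine Fin.ext ?_
      show (i : ℕ) = ((i : ℕ) * I.n + j) / I.n
      rw [mul_comm, Nat.mul_add_div hn, Nat.div_eq_of_lt j.2, add_zero]
    · refine Fin.ext ?_
      show (j : ℕ) = ((i : ℕ) * I.n + j) % I.n
      rw [mul_comm, Nat.mul_add_mod, Nat.mod_eq_of_lt j.2]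
  have hn : 0 < I.n := by omega
  have hlt : a * I.n + b < I.n * I.n := by
    calc a * I.n + b < a * I.n + I.n := by omega
      _ = (a + 1) * I.n := by ring
      _ ≤ I.n * I.n := Nat.mul_le_mul_right _ ha
  unfold adjB
  rw [h1, List.getElem?_eq_getElem (by rw [List.length_ofFn]; exact hlt), List.getElem_ofFn,
    Option.getD_some]
  congr 2
  · refine Fin.ext ?_
    show (a * I.n + b) / I.n = a
    rw [mul_comm, Nat.mul_add_div hn, Nat.div_eq_of_lt hb, add_zero]
  · refine Fin.ext ?_
    show (a * I.n + b) % I.n = b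
    rw [mul_comm, Nat.mul_add_mod, Nat.mod_eq_of_lt hb]

theorem hasClique_iff (I : CliqueInst) : I.HasClique ↔ ∃ f : ℕ → ℕ, (∀ i < I.k, f i < I.n) ∧
    ∀ i j, i < j → j < I.k → adjB I.n I.bits (f i) (f j) = true := by
  classical
  constructor
  · rintro ⟨s, hs⟩
    rw [SimpleGraph.isNClique_iff] at hs
    obtain ⟨hc, hk⟩ := hs
    set F := s.orderEmbOfFin hk with hF
    have hlt : ∀ i (h : i < I.k), (if h : i < I.k then (F ⟨i, h⟩ : ℕ) else 0) < I.n := by
      intro i h
      rw [dif_pos h]
      exact (F ⟨i, h⟩).2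
    refine ⟨fun i => if h : i < I.k then (F ⟨i, h⟩ : ℕ) else 0, hlt, ?_⟩
    intro i j hij hj
    have hi : i < I.k := by omega
    rw [adjB_bits I (hlt i hi) (hlt j hj), decide_eq_true_iff]
    have hne : F ⟨i, hi⟩ ≠ F ⟨j, hj⟩ := by
      intro h
      have := F.injective h
      rw [Fin.mk.injEq] at this
      omega
    have h1 := hc (Finset.orderEmbOfFin_mem s hk ⟨i, hi⟩) (Finset.orderEmbOfFin_mem s hk ⟨j, hj⟩) hne
    have e1 : (⟨(if h : i < I.k then (F ⟨i, h⟩ : ℕ) else 0), hlt i hi⟩ : Fin I.n) = F ⟨i, hi⟩ :=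
      Fin.ext (dif_pos hi)
    have e2 : (⟨(if h : j < I.k then (F ⟨j, h⟩ : ℕ) else 0), hlt j hj⟩ : Fin I.n) = F ⟨j, hj⟩ :=
      Fin.ext (dif_pos hj)
    rw [e1, e2]
    exact h1
  · rintro ⟨f, hf, hadj⟩
    set F : Fin I.k → Fin I.n := fun i => ⟨f i, hf i i.2⟩ with hF
    have hA : ∀ i j : Fin I.k, i < j → I.G.Adj (F i) (F j) := by
      intro i j hij
      have := hadj i j hij j.2
      rw [adjB_bits I (hf i i.2) (hf j j.2), decide_eq_true_iff] at this
      exact this
    have hA' : ∀ i j : Fin I.k, i ≠ j → I.G.Adj (F i) (F j) := by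
      intro i j hij
      rcases lt_or_gt_of_ne hij with h | h
      · exact hA i j h
      · exact (hA j i h).symm
    have hinj : Function.Injective F := by
      intro i j h
      by_contra hij
      have := hA' i j hij
      rw [h] at this
      exact this.ne rfl
    refine ⟨Finset.univ.image F, ?_⟩
    rw [SimpleGraph.isNClique_iff]
    constructor
    · intro x hx y hy hxy
      rw [Finset.mem_coe, Finset.mem_image] at hx hy
      obtain ⟨i, _, rfl⟩ := hx
      obtain ⟨j, _, rfl⟩ := hy
      exact hA' i j fun h => hxy (by rw [h])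
    · rw [Finset.card_image_of_injective _ hinj, Finset.card_univ, Fintype.card_fin]

/-- The reduction. -/
noncomputable def red (I : CliqueInst) : Inst := mkInst I.n I.k I.bits

theorem length_red (I : CliqueInst) : (red I).pieces.length = I.k + I.k.choose 2 := by
  show ((sets I.n I.k I.bits).map _).length = _
  rw [List.length_map, length_sets]

theorem red_trans (I : CliqueInst) (h : I.HasClique) : (red I).PacksTrans :=
  (packs_iff (tgt_nonneg I.n I.k) (sets_good I.n I.k I.bits) (I := red I) rfl rfl).1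
    ((isSum_iff _ _ _).2 ((hasClique_iff I).1 h))

theorem red_packs (I : CliqueInst) (h : (red I).Packs) : I.HasClique := by
  rcases Nat.eq_zero_or_pos I.k with hk | hk
  · refine ⟨∅, ?_⟩
    rw [hk, SimpleGraph.isNClique_iff]
    simp
  · have hpos : 0 < (sets I.n I.k I.bits).length := by
      rw [length_sets]
      omega
    exact (hasClique_iff I).2 ((isSum_iff _ _ _).1
      ((packs_iff (tgt_nonneg I.n I.k) (sets_good I.n I.k I.bits) (I := red I) rfl rfl).2 hpos h))

end Pool.Agent.Lib.MP_858715_lc
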