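import Pool.Agent.Lib.MP_858715_lc.Tilt

/-!
# A solution of the sum problem gives a placement of the bars by translations
-/

namespace Pool.Agent.Lib.MP_858715_lc

theorem move_zero (u z : ℝ × ℝ) : move 0 u z = (z.1 + u.1, z.2 + u.2) := by
  unfold move
  simp

/-- The interior of a translated bar avoids the closed notches. -/
theorem interior_notch {A : ℤ} {L : ℝ} {S : List ℤ} {v : ℤ} (hv : v ∈ S) (u w : ℝ × ℝ)
    (hw : w ∈ interior (move 0 u '' Shp L 2 A S)) :
    ¬ ((A : ℝ) + 2 * v ≤ w.1 - u.1 ∧ w.1 - u.1 ≤ (A : ℝ) + 2 * v + 1 ∧ w.2 - u.2 ≤ 1) := by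
  rintro ⟨h1, h2, h3⟩
  have hdis : Disjoint (interior (move 0 u '' Shp L 2 A S))
      (Set.Ioo (u.1 + (A + 2 * v)) (u.1 + (A + 2 * v + 1)) ×ˢ Set.Iio (u.2 + 1)) := by
    rw [Set.disjoint_left]
    rintro p hp ⟨⟨h4, h5⟩, h6⟩
    obtain ⟨z, hz, rfl⟩ := interior_subset hp
    rw [move_zero] at h4 h5 h6
    simp only at h4 h5
    have h6' : z.2 + u.2 < u.2 + 1 := h6
    rcases hz with ⟨_, _, _, _, h7⟩ | ⟨_, _, h7, _⟩
    · exact h7 v hv ⟨by linarith, by linarith, by linarith⟩
    · linarith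
  have hcl := hdis.closure_right isOpen_interior
  rw [closure_prod_eq, closure_Ioo (by linarith), closure_Iio] at hcl
  exact Set.disjoint_left.mp hcl hw ⟨⟨by linarith, by linarith⟩, by
    show w.2 ≤ u.2 + 1
    linarith⟩

theorem complete {K : ℕ} {A T : ℤ} {S : Fin K → List ℤ} {L : ℝ} (hT : 0 ≤ T)
    (hA : 4 * T + (2 * K + 1) ^ 2 + 13 ≤ A) (hL : L = 2 * A + 2 * T + 1)
    (hS0 : ∀ i, ∀ v ∈ S i, 0 ≤ v) (v : Fin K → ℤ) (hv : ∀ i, v i ∈ S i)
    (hsum : ∑ i, v i = T) :
    ∃ u : Fin K → ℝ × ℝ, Placed (Shp (L + 2 * T) (2 * K) A [T]) (fun i => Shp L 2 A (S i))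
      (fun _ => 0) u := by
  have hT' : (0 : ℝ) ≤ T := by exact_mod_cast hT
  have hA' : 4 * (T : ℝ) + (2 * K + 1) ^ 2 + 13 ≤ A := by exact_mod_cast hA
  have hA0 : 4 * (T : ℝ) + 13 ≤ A := by nlinarith [sq_nonneg (2 * (K : ℝ) + 1)]
  have hv0 : ∀ i, 0 ≤ v i := fun i => hS0 i _ (hv i)
  -- partial sums
  set p : Fin K → ℤ := fun i => ∑ j ∈ Finset.univ.filter (fun j => j ≤ i), v j with hp
  have hp0 : ∀ i, 0 ≤ p i := fun i => Finset.sum_nonneg fun j _ => hv0 j
  have hpT : ∀ i, p i ≤ T := by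
    intro i
    rw [← hsum]
    exact Finset.sum_le_sum_of_subset_of_nonneg (Finset.filter_subset _ _) fun j _ _ => hv0 j
  have hfirst : ∀ i : Fin K, (i : ℕ) = 0 → p i = v i := by
    intro i hi
    rw [hp]
    simp only
    have : Finset.univ.filter (fun j : Fin K => j ≤ i) = {i} := by
      ext j
      rw [Finset.mem_filter, Finset.mem_singleton]
      constructor
      · rintro ⟨_, hj⟩
        apply Fin.ext
        have : (j : ℕ) ≤ i := hj
        omega
      · rintro rfl
        exact ⟨Finset.mem_univ _, le_rfl⟩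
    rw [this, Finset.sum_singleton]
  have hsucc : ∀ i j : Fin K, (j : ℕ) = i + 1 → p j = p i + v j := by
    intro i j hij
    rw [hp]
    simp only
    have : Finset.univ.filter (fun l : Fin K => l ≤ j) =
        insert j (Finset.univ.filter (fun l : Fin K => l ≤ i)) := by
      ext l
      rw [Finset.mem_insert, Finset.mem_filter, Finset.mem_filter]
      constructor
      · rintro ⟨_, hl⟩
        have h1 : (l : ℕ) ≤ j := hl
        by_cases h2 : (l : ℕ) = j
        · exact Or.inl (Fin.ext h2)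
        · refine Or.inr ⟨Finset.mem_univ _, ?_⟩
          show (l : ℕ) ≤ i
          omega
      · rintro (rfl | ⟨_, hl⟩)
        · exact ⟨Finset.mem_univ _, le_rfl⟩
        · refine ⟨Finset.mem_univ _, ?_⟩
          have h1 : (l : ℕ) ≤ i := hl
          show (l : ℕ) ≤ j
          omega
    rw [this, Finset.sum_insert, add_comm]
    rw [Finset.mem_filter]
    rintro ⟨_, h1⟩
    have h2 : (j : ℕ) ≤ i := h1
    omega
  have hlast : ∀ i : Fin K, (i : ℕ) + 1 = K → p i = T := by
    intro i hi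
    rw [← hsum, hp]
    simp only
    congr 1
    ext j
    rw [Finset.mem_filter]
    refine ⟨fun _ => Finset.mem_univ _, fun _ => ⟨Finset.mem_univ _, ?_⟩⟩
    show (j : ℕ) ≤ i
    have := j.2
    omega
  have hp0' : ∀ i, (0 : ℝ) ≤ p i := fun i => by exact_mod_cast hp0 i
  have hpT' : ∀ i, (p i : ℝ) ≤ T := fun i => by exact_mod_cast hpT i
  refine ⟨fun i => (2 * T - 2 * p i, 2 * (i : ℕ)), ?_, ?_⟩
  · rintro i _ ⟨z, hz, rfl⟩
    rw [move_zero]
    have hiK : (i : ℕ) + 1 ≤ K := i.2
    have hiK' : ((i : ℕ) : ℝ) + 1 ≤ K := by exact_mod_cast hiK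
    have hi0 : (0 : ℝ) ≤ (i : ℕ) := Nat.cast_nonneg _
    have hpi0 := hp0' i
    have hpiT := hpT' i
    rcases hz with ⟨h1, h2, h3, h4, h5⟩ | ⟨h1, h2, h3, h4⟩
    · refine Or.inl ⟨by simp only; linarith, by simp only; linarith, by simp only; linarith,
        by simp only; linarith, ?_⟩
      intro v' hv' hh
      rw [List.mem_singleton] at hv'
      subst hv'
      obtain ⟨h6, h7, h8⟩ := hh
      simp only at h6 h7 h8
      by_cases hi : (i : ℕ) = 0
      · have h9 := hfirst i hi
        have h10 : (p i : ℝ) = v i := by exact_mod_cast h9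
        rw [hi, Nat.cast_zero] at h8
        exact h5 (v i) (hv i) ⟨by linarith, by linarith, by linarith⟩
      · have : (1 : ℝ) ≤ (i : ℕ) := by exact_mod_cast (by omega : 1 ≤ (i : ℕ))
        linarith
    · by_cases hi : (i : ℕ) + 1 = K
      · have h9 := hlast i hi
        have h10 : (p i : ℝ) = T := by exact_mod_cast h9
        have h11 : ((i : ℕ) : ℝ) + 1 = K := by exact_mod_cast hi
        exact Or.inr ⟨by simp only; linarith, by simp only; linarith, by simp only; linarith,
          by simp only; linarith⟩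
      · have h11 : ((i : ℕ) : ℝ) + 2 ≤ K := by exact_mod_cast (by omega : (i : ℕ) + 2 ≤ K)
        refine Or.inl ⟨by simp only; linarith, by simp only; linarith, by simp only; linarith,
          by simp only; linarith, ?_⟩
        rintro v' hv' ⟨_, _, h8⟩
        simp only at h8
        linarith
  · have key : ∀ i j : Fin K, i < j → Disjoint
        (interior (move 0 (2 * T - 2 * p i, 2 * (i : ℕ)) '' Shp L 2 A (S i)))
        (interior (move 0 (2 * T - 2 * p j, 2 * (j : ℕ)) '' Shp L 2 A (S j))) := by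
      intro i j hij
      rw [Set.disjoint_left]
      intro w hwi hwj
      -- `w` is above the bottom of the bar `j`
      have h1 : 2 * ((j : ℕ) : ℝ) < w.2 := by
        have hsub : move 0 (2 * T - 2 * p j, 2 * (j : ℕ)) '' Shp L 2 A (S j) ⊆
            {q : ℝ × ℝ | 2 * ((j : ℕ) : ℝ) ≤ q.2} := by
          rintro _ ⟨z, hz, rfl⟩
          rw [move_zero]
          show 2 * ((j : ℕ) : ℝ) ≤ z.2 + 2 * (j : ℕ)
          rcases hz with ⟨_, _, h3, _⟩ | ⟨_, _, h3, _⟩ <;> linarith
        have h2 := interior_mono hsub hwj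
        have h3 : {q : ℝ × ℝ | 2 * ((j : ℕ) : ℝ) ≤ q.2} =
            Set.univ ×ˢ Set.Ici (2 * ((j : ℕ) : ℝ)) := by
          ext q
          simp
        rw [h3, interior_prod_eq, interior_univ, interior_Ici] at h2
        exact h2.2
      obtain ⟨z, hz, hzw⟩ := interior_subset hwi
      rw [move_zero] at hzw
      have e1 : w.1 = z.1 + (2 * T - 2 * p i) := by rw [← hzw]
      have e2 : w.2 = z.2 + 2 * (i : ℕ) := by rw [← hzw]
      have hijn : (i : ℕ) < j := hij
      have hijr : ((i : ℕ) : ℝ) + 1 ≤ (j : ℕ) := by exact_mod_cast hijn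
      rcases hz with ⟨_, _, _, h4, _⟩ | ⟨h3, h4, h5, h6⟩
      · linarith
      · have h7 : ((j : ℕ) : ℝ) < (i : ℕ) + 2 := by linarith
        have h8 : (j : ℕ) < (i : ℕ) + 2 := by exact_mod_cast h7
        have h9 : (j : ℕ) = (i : ℕ) + 1 := by omega
        have h10 := hsucc i j h9
        have h11 : (p j : ℝ) = p i + v j := by exact_mod_cast h10
        have h12 : ((j : ℕ) : ℝ) = (i : ℕ) + 1 := by exact_mod_cast h9
        refine interior_notch (hv j) _ w hwj ⟨?_, ?_, ?_⟩ <;> simp only <;> linarith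
    intro i j hij
    rcases lt_or_gt_of_ne hij with h1 | h1
    · exact key i j h1
    · exact (key j i h1).symm

end Pool.Agent.Lib.MP_858715_lc
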