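import Mathlib

/-!
# Packing polygons: definitions
-/

namespace Pool.Agent.Lib.MP_858715_lc

/-! ### Polygons -/

/-- A polygon, given by the cyclic list of its vertices, which have rational coordinates. -/
abbrev Poly := List (ℚ × ℚ)

/-- A pair of rational coordinates as a point of the plane. -/
def toPt (p : ℚ × ℚ) : ℝ × ℝ := ((p.1 : ℝ), (p.2 : ℝ))

/-- The edges of a polygon: the pairs of cyclically consecutive vertices. -/
def edges (P : Poly) : List ((ℚ × ℚ) × (ℚ × ℚ)) := P.zip (P.rotate 1)

/-- The closed segment of an edge. -/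
def seg (e : (ℚ × ℚ) × (ℚ × ℚ)) : Set (ℝ × ℝ) := segment ℝ (toPt e.1) (toPt e.2)

/-- The closed polygonal curve. -/
def boundary (P : Poly) : Set (ℝ × ℝ) := {z | ∃ e ∈ edges P, z ∈ seg e}

/-- Simple polygons: there are at least three vertices, all different, and two different edges
can only meet in a common vertex, in which one of them ends and the other one starts. -/
def IsSimple (P : Poly) : Prop :=
  3 ≤ P.length ∧ P.Nodup ∧ ∀ e ∈ edges P, ∀ e' ∈ edges P, e ≠ e' → ∀ z ∈ seg e ∩ seg e',
    (z = toPt e.2 ∧ e.2 = e'.1) ∨ (z = toPt e.1 ∧ e.1 = e'.2)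

/-- Orthogonal polygons on the integer grid: the vertices have integer coordinates, and every edge
is parallel to one of the coordinate axes. -/
def IsGridPolygon (P : Poly) : Prop :=
  (∀ p ∈ P, ∃ a b : ℤ, p = ((a : ℚ), (b : ℚ))) ∧ ∀ e ∈ edges P, e.1.1 = e.2.1 ∨ e.1.2 = e.2.2

/-- The closed region bounded by a simple polygon: the points of the curve, and the points which
lie in a bounded connected component of the complement of the curve. -/
def region (P : Poly) : Set (ℝ × ℝ) :=
  boundary P ∪ {z | z ∉ boundary P ∧ Bornology.IsBounded (connectedComponentIn (boundary P)ᶜ z)}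

/-- The rigid motion: rotation by the angle `θ` about the origin, followed by the translation
by `u`. -/
noncomputable def move (θ : ℝ) (u : ℝ × ℝ) (z : ℝ × ℝ) : ℝ × ℝ :=
  (Real.cos θ * z.1 - Real.sin θ * z.2 + u.1, Real.sin θ * z.1 + Real.cos θ * z.2 + u.2)

/-- The sets `X i` can be placed into `C` with the rotation angles `θ i` and the translations
`u i`, with pairwise disjoint interiors. -/
def Placed {m : ℕ} (C : Set (ℝ × ℝ)) (X : Fin m → Set (ℝ × ℝ)) (θ : Fin m → ℝ)
    (u : Fin m → ℝ × ℝ) : Prop :=
  (∀ i, move (θ i) (u i) '' X i ⊆ C) ∧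
    ∀ i j, i ≠ j → Disjoint (interior (move (θ i) (u i) '' X i))
      (interior (move (θ j) (u j) '' X j))

/-! ### The two problems -/

/-- An instance of geometric packing: a simple polygon, the container, and a list of simple
polygons, the pieces. -/
structure Inst where
  /-- the container -/
  C : Poly
  /-- the pieces -/
  pieces : List Poly
  simpleC : IsSimple C
  simpleP : ∀ P ∈ pieces, IsSimple P

/-- The pieces can be placed into the container by rigid motions. -/
def Inst.Packs (I : Inst) : Prop :=
  ∃ (θ : Fin I.pieces.length → ℝ) (u : Fin I.pieces.length → ℝ × ℝ),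
    Placed (region I.C) (fun i => region I.pieces[i]) θ u

/-- The pieces can be placed into the container by translations. -/
def Inst.PacksTrans (I : Inst) : Prop :=
  ∃ u : Fin I.pieces.length → ℝ × ℝ,
    Placed (region I.C) (fun i => region I.pieces[i]) (fun _ => 0) u

/-- The alphabet of the words describing instances of geometric packing: the bits `inl b` and the
marks `-` (`inr 0`), `/` (`inr 1`), `,` (`inr 2`), `;` (`inr 3`). -/
abbrev Sym := Bool ⊕ Fin 4

/-- A rational number: the sign, the numerator and the denominator in binary (least significant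
bits first). -/
def encQ (q : ℚ) : List Sym :=
  (if q < 0 then [Sum.inr 0] else []) ++ (Nat.bits q.num.natAbs).map Sum.inl ++ [Sum.inr 1] ++
    (Nat.bits q.den).map Sum.inl ++ [Sum.inr 2]

/-- A polygon: the coordinates of the vertices, and a final mark `;`. -/
def encPoly (P : Poly) : List Sym := P.flatMap (fun p => encQ p.1 ++ encQ p.2) ++ [Sum.inr 3]

/-- The word of an instance: the container and the pieces. -/
def Inst.encode (I : Inst) : List Sym := encPoly I.C ++ I.pieces.flatMap encPoly

/-- An instance of `k`-Clique: a graph with `n` vertices and the number `k`. -/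
structure CliqueInst where
  /-- number of vertices -/
  n : ℕ
  /-- size of the clique -/
  k : ℕ
  /-- the graph -/
  G : SimpleGraph (Fin n)

/-- The graph contains a clique with `k` vertices. -/
def CliqueInst.HasClique (I : CliqueInst) : Prop := ∃ s : Finset (Fin I.n), I.G.IsNClique I.k s

open Classical in
/-- The word of an instance of `k`-Clique, over the alphabet of the bits `inl b` and the marks
`inr 0`, `inr 1`: the mark `inr 0` is written `k` times, then the mark `inr 1` is written `n`
times, and then come the `n ^ 2` bits of the adjacency matrix, row by row. -/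
noncomputable def CliqueInst.encode (I : CliqueInst) : List (Bool ⊕ Fin 2) :=
  List.replicate I.k (Sum.inr 0) ++ List.replicate I.n (Sum.inr 1) ++
    (List.ofFn fun i => List.ofFn fun j =>
      (Sum.inl (decide (I.G.Adj i j)) : Bool ⊕ Fin 2)).flatten

/-! ### The polygons of the reduction -/

/-- The lower chain of the notches. -/
def notches (A : ℤ) (S : List ℤ) : List (ℤ × ℤ) :=
  S.flatMap fun v => [(A + 2 * v, 0), (A + 2 * v, 1), (A + 2 * v + 1, 1), (A + 2 * v + 1, 0)]

/-- A rectangle of length `L` and height `H`, with notches of width and depth `1` at the bottom,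
at the positions `A + 2 v` for `v ∈ S`, and a tooth of width and height `1` on the top, at the
position `A`. -/
def shapeZ (L H A : ℤ) (S : List ℤ) : List (ℤ × ℤ) :=
  (0, 0) :: (notches A S ++
    [(L, 0), (L, H), (A + 1, H), (A + 1, H + 1), (A, H + 1), (A, H), (0, H)])

/-- The same polygon with rational coordinates. -/
def shape (L H A : ℤ) (S : List ℤ) : Poly :=
  (shapeZ L H A S).map fun p => ((p.1 : ℚ), (p.2 : ℚ))

/-- The region of `shape`. -/
def Shp (L H A : ℝ) (S : List ℤ) : Set (ℝ × ℝ) :=
  {z | 0 ≤ z.1 ∧ z.1 ≤ L ∧ 0 ≤ z.2 ∧ z.2 ≤ H ∧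
      ∀ v ∈ S, ¬ (A + 2 * (v : ℝ) < z.1 ∧ z.1 < A + 2 * (v : ℝ) + 1 ∧ z.2 < 1)} ∪
    {z | A ≤ z.1 ∧ z.1 ≤ A + 1 ∧ H ≤ z.2 ∧ z.2 ≤ H + 1}

/-- Conditions on the parameters. -/
structure Good (L H A : ℤ) (S : List ℤ) : Prop where
  hS : S.Pairwise (· < ·)
  hv : ∀ v ∈ S, 0 ≤ v ∧ A + 2 * v + 1 < L
  hA : 0 < A
  hL : A + 1 < L
  hH : 2 ≤ H

end Pool.Agent.Lib.MP_858715_lc
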