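import Pool.Agent.Lib.MP_858715_lc.Clique

/-!
# The polygons of the reduction are orthogonal
-/

namespace Pool.Agent.Lib.MP_858715_lc

theorem steps_cons {α : Type*} (p q : α) (l : List α) :
    steps p (q :: l) = (p, q) :: steps q l := rfl

theorem steps_nil {α : Type*} (p : α) : steps p ([] : List α) = [] := rfl

theorem steps_par (L H A : ℤ) (S : List ℤ) : ∀ x : ℤ, ∀ e ∈ steps (x, 0) (notches A S ++
    [(L, 0), (L, H), (A + 1, H), (A + 1, H + 1), (A, H + 1), (A, H), (0, H), (0, 0)]),
    e.1.1 = e.2.1 ∨ e.1.2 = e.2.2 := by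
  induction S with
  | nil =>
    intro x e he
    simp only [notches, List.flatMap_nil, List.nil_append, steps_cons, steps_nil,
      List.mem_cons, List.not_mem_nil, or_false] at he
    rcases he with rfl | rfl | rfl | rfl | rfl | rfl | rfl | rfl <;> simp
  | cons v S ih =>
    intro x e he
    have h1 : notches A (v :: S) = (A + 2 * v, 0) :: (A + 2 * v, 1) :: (A + 2 * v + 1, 1) ::
        (A + 2 * v + 1, 0) :: notches A S := rfl
    rw [h1] at he
    simp only [List.cons_append, steps_cons, List.mem_cons] at he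
    rcases he with rfl | rfl | rfl | rfl | he
    · simp
    · simp
    · simp
    · simp
    · exact ih _ e he

theorem grid_shape (L H A : ℤ) (S : List ℤ) : IsGridPolygon (shape L H A S) := by
  constructor
  · intro p hp
    unfold shape at hp
    rw [List.mem_map] at hp
    obtain ⟨q, _, rfl⟩ := hp
    exact ⟨q.1, q.2, rfl⟩
  · have hedges : edges (shape L H A S) = (steps (0, 0) (notches A S ++
        [(L, 0), (L, H), (A + 1, H), (A + 1, H + 1), (A, H + 1), (A, H), (0, H), (0, 0)])).map
          (fun e => (((e.1.1 : ℚ), (e.1.2 : ℚ)), ((e.2.1 : ℚ), (e.2.2 : ℚ)))) := by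
      unfold shape shapeZ
      rw [List.map_cons, edges_cons]
      have h1 : (List.map (fun p : ℤ × ℤ => ((p.1 : ℚ), (p.2 : ℚ)))
          (notches A S ++ [(L, 0), (L, H), (A + 1, H), (A + 1, H + 1), (A, H + 1), (A, H),
            (0, H)]) ++ [(fun p : ℤ × ℤ => ((p.1 : ℚ), (p.2 : ℚ))) (0, 0)]) =
          List.map (fun p : ℤ × ℤ => ((p.1 : ℚ), (p.2 : ℚ))) (notches A S ++
          [(L, 0), (L, H), (A + 1, H), (A + 1, H + 1), (A, H + 1), (A, H), (0, H), (0, 0)]) := by
        simp
      rw [h1, steps_map (fun p : ℤ × ℤ => ((p.1 : ℚ), (p.2 : ℚ)))]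
    intro e he
    rw [hedges, List.mem_map] at he
    obtain ⟨e', he', rfl⟩ := he
    rcases steps_par L H A S 0 e' he' with h | h
    · left
      simp [h]
    · right
      simp [h]

theorem grid_red (I : CliqueInst) : ∀ P ∈ (red I).C :: (red I).pieces, IsGridPolygon P := by
  intro P hP
  rcases List.mem_cons.1 hP with rfl | hP
  · exact grid_shape _ _ _ _
  · have : (red I).pieces = (sets I.n I.k I.bits).map (piece (sets I.n I.k I.bits).length
      (tgt I.n I.k)) := rfl
    rw [this, List.mem_map] at hP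
    obtain ⟨s, _, rfl⟩ := hP
    exact grid_shape _ _ _ _

end Pool.Agent.Lib.MP_858715_lc
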