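import Mathlib

/-!
# The number-theoretic part of the reduction: `k`-Clique as a multicoloured sum problem
-/

namespace Pool.Agent.Lib.MP_858715_lc

open Finset

/-- One element can be chosen from every list in `L`, so that the sum is `T`. -/
def IsSum (L : List (List ℤ)) (T : ℤ) : Prop :=
  ∃ l : List ℤ, List.Forall₂ (fun a s => a ∈ s) l L ∧ l.sum = T

/-- The pairs `(i, j)` with `i ≤ j < k`. -/
def idx (k : ℕ) : List (ℕ × ℕ) :=
  (List.range k).flatMap fun j => (List.range (j + 1)).map fun i => (i, j)

/-- The weight of the digit `(i, j)`. -/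
def dig (n k i j : ℕ) : ℤ := (2 * (n : ℤ) + 1) ^ (i * k + j)

/-- The sum of the weights of the digits `(i, j)`, `j ≠ i`. -/
def wt (n k i : ℕ) : ℤ := ((List.range k).map fun j => if j = i then 0 else dig n k i j).sum

/-- The numbers of the vertex bar `i`. -/
def vset (n k i : ℕ) : List ℤ := (List.range n).map fun v : ℕ => (v : ℤ) * wt n k i

/-- The entries of the adjacency matrix. -/
def adjB (n : ℕ) (l : List Bool) (a b : ℕ) : Bool := l[a * n + b]?.getD false

/-- The numbers of the edge bar `(i, j)`. -/
def eset (n k : ℕ) (l : List Bool) (i j : ℕ) : List ℤ :=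
  (List.range n).flatMap fun u : ℕ => ((List.range n).filter fun w => adjB n l u w).map
    fun w : ℕ => ((n : ℤ) - u) * dig n k i j + ((n : ℤ) - w) * dig n k j i

/-- The target. -/
def tgt (n k : ℕ) : ℤ := ((List.range k).map fun i => (n : ℤ) * wt n k i).sum

/-- The numbers of the bar `(i, j)`. -/
def rawset (n k : ℕ) (l : List Bool) (p : ℕ × ℕ) : List ℤ :=
  if p.1 = p.2 then vset n k p.1 else eset n k l p.1 p.2

/-- Sort, remove duplicates and the numbers outside of `[0, T]`. -/
def clean (T : ℤ) (s : List ℤ) : List ℤ :=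
  ((s.filter fun v => 0 ≤ v ∧ v ≤ T).dedup).insertionSort (· ≤ ·)

/-- The lists of the reduction. -/
def sets (n k : ℕ) (l : List Bool) : List (List ℤ) :=
  (idx k).map fun p => clean (tgt n k) (rawset n k l p)

theorem mem_clean {T : ℤ} {s : List ℤ} {v : ℤ} : v ∈ clean T s ↔ v ∈ s ∧ 0 ≤ v ∧ v ≤ T := by
  unfold clean
  rw [List.mem_insertionSort, List.mem_dedup, List.mem_filter]
  simp

theorem clean_pairwise (T : ℤ) (s : List ℤ) : (clean T s).Pairwise (· < ·) := by
  unfold clean
  have h1 : ((((s.filter fun v => 0 ≤ v ∧ v ≤ T).dedup).insertionSort (· ≤ ·))).Pairwise (· ≤ ·) :=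
    List.pairwise_insertionSort _ _
  have h2 : ((((s.filter fun v => 0 ≤ v ∧ v ≤ T).dedup).insertionSort (· ≤ ·))).Nodup :=
    (List.perm_insertionSort _ _).nodup_iff.2 (List.nodup_dedup _)
  exact (h1.and h2).imp fun h => lt_of_le_of_ne h.1 h.2

/-! ### Choosing elements -/

theorem isSum_fin {L : List (List ℤ)} {T : ℤ} :
    IsSum L T ↔ ∃ v : Fin L.length → ℤ, (∀ i, v i ∈ L[i]) ∧ ∑ i, v i = T := by
  constructor
  · rintro ⟨l, hl, hs⟩
    have hlen := hl.length_eq
    refine ⟨fun i => l[i]'(by have := i.2; omega), fun i => ?_, ?_⟩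
    · have := List.forall₂_iff_get.1 hl
      exact this.2 i (by have := i.2; omega) i.2
    · rw [← hs]
      have : l.sum = ∑ i : Fin l.length, l[i] := by
        conv_lhs => rw [← List.ofFn_getElem (xs := l)]
        rw [List.sum_ofFn]
        rfl
      rw [this]
      have e : ∀ m (h : m = l.length), ∑ i : Fin m, l[(i : ℕ)]'(by have := i.2; omega) =
          ∑ i : Fin l.length, l[i] := by
        intro m h
        subst h
        rfl
      exact e _ hlen.symm
  · rintro ⟨v, hv, hs⟩
    refine ⟨List.ofFn v, ?_, ?_⟩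
    · rw [List.forall₂_iff_get]
      refine ⟨by simp, fun i h1 h2 => ?_⟩
      simpa using hv ⟨i, h2⟩
    · rw [List.sum_ofFn, hs]

theorem isSum_map {α : Type} {L : List α} (hL : L.Nodup) {F : α → List ℤ} {T : ℤ} :
    IsSum (L.map F) T ↔ ∃ g : α → ℤ, (∀ a ∈ L, g a ∈ F a) ∧ (L.map g).sum = T := by
  classical
  constructor
  · rintro ⟨l, hl, rfl⟩
    induction L generalizing l with
    | nil =>
      rw [List.map_nil, List.forall₂_nil_right_iff] at hl
      subst hl
      exact ⟨fun _ => 0, by simp, by simp⟩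
    | cons a L ih =>
      rw [List.map_cons, List.forall₂_cons_right_iff] at hl
      obtain ⟨b, l', hb, hl', rfl⟩ := hl
      rw [List.nodup_cons] at hL
      obtain ⟨g, hg, hs⟩ := ih hL.2 l' hl'
      refine ⟨Function.update g a b, ?_, ?_⟩
      · intro c hc
        rcases List.mem_cons.1 hc with rfl | hc
        · simpa using hb
        · have hne : c ≠ a := fun h => hL.1 (h ▸ hc)
          rw [Function.update_of_ne hne]
          exact hg c hc
      · rw [List.map_cons, List.sum_cons, List.sum_cons, Function.update_self, ← hs]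
        congr 2
        refine List.map_congr_left fun c hc => ?_
        have hne : c ≠ a := fun h => hL.1 (h ▸ hc)
        rw [Function.update_of_ne hne]
  · rintro ⟨g, hg, hs⟩
    refine ⟨L.map g, ?_, hs⟩
    rw [List.forall₂_map_left_iff, List.forall₂_map_right_iff, List.forall₂_same]
    exact hg

theorem mem_idx {k : ℕ} {p : ℕ × ℕ} : p ∈ idx k ↔ p.1 ≤ p.2 ∧ p.2 < k := by
  unfold idx
  rw [List.mem_flatMap]
  constructor
  · rintro ⟨j, hj, hp⟩
    rw [List.mem_map] at hp
    obtain ⟨i, hi, rfl⟩ := hp
    rw [List.mem_range] at hi hj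
    exact ⟨by simpa using Nat.lt_succ_iff.1 hi, hj⟩
  · rintro ⟨h1, h2⟩
    exact ⟨p.2, List.mem_range.2 h2, List.mem_map.2 ⟨p.1, List.mem_range.2 (by omega), rfl⟩⟩

theorem idx_nodup (k : ℕ) : (idx k).Nodup := by
  unfold idx
  rw [List.nodup_flatMap]
  constructor
  · intro j _
    refine List.Nodup.map ?_ List.nodup_range
    intro a b h
    simpa using h
  · refine List.nodup_range.imp ?_
    intro a b hab
    rw [Function.onFun, List.disjoint_left]
    intro p hp hp'
    rw [List.mem_map] at hp hp'
    obtain ⟨i, _, rfl⟩ := hp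
    obtain ⟨i', _, h⟩ := hp'
    simp only [Prod.mk.injEq] at h
    exact hab h.2.symm

theorem idx_sum (g : ℕ × ℕ → ℤ) (k : ℕ) :
    ((idx k).map g).sum = ∑ j ∈ range k, (∑ i ∈ range j, g (i, j) + g (j, j)) := by
  induction k with
  | zero => simp [idx]
  | succ k ih =>
    have : idx (k + 1) = idx k ++ (List.range (k + 1)).map fun i => (i, k) := by
      unfold idx
      rw [List.range_succ (n := k), List.flatMap_append, List.flatMap_singleton, List.range_succ]
    rw [this, List.map_append, List.sum_append, ih, Finset.sum_range_succ, List.map_map]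
    congr 1
    rw [← Finset.sum_range_succ (fun i => g (i, k))]
    rw [← List.sum_toFinset _ List.nodup_range, List.toFinset_range]
    rfl

theorem length_idx (k : ℕ) : (idx k).length = k + k.choose 2 := by
  induction k with
  | zero => simp [idx]
  | succ k ih =>
    have : idx (k + 1) = idx k ++ (List.range (k + 1)).map fun i => (i, k) := by
      unfold idx
      rw [List.range_succ (n := k), List.flatMap_append, List.flatMap_singleton, List.range_succ]
    rw [this, List.length_append, ih, List.length_map, List.length_range, Nat.choose_succ_succ' k 1,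
      Nat.choose_one_right]
    ring

theorem list_sum_range (k : ℕ) (g : ℕ → ℤ) : ((List.range k).map g).sum = ∑ i ∈ range k, g i := by
  rw [← List.sum_toFinset _ List.nodup_range, List.toFinset_range]

theorem wt_eq (n k i : ℕ) : wt n k i = ∑ j ∈ range k, if j = i then 0 else dig n k i j :=
  list_sum_range _ _

theorem tgt_eq (n k : ℕ) : tgt n k = ∑ i ∈ range k, (n : ℤ) * wt n k i := list_sum_range _ _

/-- The sum over the square without the diagonal. -/
theorem tri_sum (F : ℕ → ℕ → ℤ) (k : ℕ) :
    ∑ j ∈ range k, ∑ i ∈ range j, (F i j + F j i) =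
      ∑ i ∈ range k, ∑ j ∈ range k, if j = i then 0 else F i j := by
  induction k with
  | zero => simp
  | succ k ih =>
    rw [Finset.sum_range_succ, ih, Finset.sum_range_succ (n := k)]
    have e1 : ∀ i ∈ range k, (∑ j ∈ range (k + 1), if j = i then 0 else F i j) =
        (∑ j ∈ range k, if j = i then 0 else F i j) + F i k := by
      intro i hi
      rw [Finset.sum_range_succ, if_neg]
      rw [Finset.mem_range] at hi
      omega
    have e2 : (∑ j ∈ range (k + 1), if j = k then 0 else F k j) = ∑ j ∈ range k, F k j := by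
      rw [Finset.sum_range_succ, if_pos rfl, add_zero]
      refine Finset.sum_congr rfl fun j hj => ?_
      rw [Finset.mem_range] at hj
      rw [if_neg (by omega)]
    rw [Finset.sum_congr rfl e1, e2, Finset.sum_add_distrib, Finset.sum_add_distrib]
    ring

/-- Uniqueness of digits. -/
theorem digits_zero {B : ℤ} (hB : 0 < B) (m : ℕ) : ∀ e : ℕ → ℤ, (∀ d < m, |e d| < B) →
    ∑ d ∈ range m, e d * B ^ d = 0 → ∀ d < m, e d = 0 := by
  induction m with
  | zero => intro e _ _ d hd; omega
  | succ m ih =>
    intro e he hs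
    rw [Finset.sum_range_succ'] at hs
    have h1 : ∑ d ∈ range m, e (d + 1) * B ^ (d + 1) = B * ∑ d ∈ range m, e (d + 1) * B ^ d := by
      rw [Finset.mul_sum]
      exact Finset.sum_congr rfl fun d _ => by ring
    rw [h1, pow_zero, mul_one] at hs
    have h0 : e 0 = 0 := by
      have hd : B ∣ e 0 := ⟨-∑ d ∈ range m, e (d + 1) * B ^ d, by linarith⟩
      exact Int.eq_zero_of_abs_lt_dvd hd (he 0 (by omega))
    rw [h0, add_zero] at hs
    have h2 := (mul_eq_zero.1 hs).resolve_left hB.ne'
    have h3 := ih (fun d => e (d + 1)) (fun d hd => he (d + 1) (by omega)) h2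
    intro d hd
    rcases d with _ | d
    · exact h0
    · exact h3 d (by omega)

theorem sum_range_mul' (F : ℕ → ℤ) (k a : ℕ) :
    ∑ d ∈ range (a * k), F d = ∑ i ∈ range a, ∑ j ∈ range k, F (i * k + j) := by
  induction a with
  | zero => simp
  | succ a ih =>
    rw [Nat.succ_mul, Finset.sum_range_add, ih, Finset.sum_range_succ]

/-- Uniqueness of digits, for digits indexed by pairs. -/
theorem digits_zero₂ {n k : ℕ} (E : ℕ → ℕ → ℤ) (hE : ∀ i < k, ∀ j < k, |E i j| < 2 * (n : ℤ) + 1)
    (hs : ∑ i ∈ range k, ∑ j ∈ range k, E i j * dig n k i j = 0) :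
    ∀ i < k, ∀ j < k, E i j = 0 := by
  intro i hi j hj
  have hk : 0 < k := by omega
  have key : ∀ i j, j < k → (i * k + j) / k = i ∧ (i * k + j) % k = j := by
    intro i j hj
    constructor
    · rw [mul_comm, Nat.mul_add_div hk, Nat.div_eq_of_lt hj, add_zero]
    · rw [mul_comm, Nat.mul_add_mod, Nat.mod_eq_of_lt hj]
  have h := digits_zero (B := 2 * (n : ℤ) + 1) (by positivity) (k * k)
    (fun d => E (d / k) (d % k)) ?_ ?_ (i * k + j) ?_
  · simpa only [(key i j hj).1, (key i j hj).2] using h
  · intro d hd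
    exact hE _ (Nat.div_lt_of_lt_mul hd) _ (Nat.mod_lt _ hk)
  · rw [sum_range_mul', ← hs]
    refine Finset.sum_congr rfl fun i _ => Finset.sum_congr rfl fun j hj => ?_
    rw [Finset.mem_range] at hj
    rw [(key i j hj).1, (key i j hj).2]
    rfl
  · calc i * k + j < i * k + k := by omega
      _ = (i + 1) * k := by ring
      _ ≤ k * k := Nat.mul_le_mul_right _ hi

theorem dig_nonneg (n k i j : ℕ) : 0 ≤ dig n k i j := by
  unfold dig
  positivity

theorem wt_nonneg (n k i : ℕ) : 0 ≤ wt n k i := by
  rw [wt_eq]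
  refine Finset.sum_nonneg fun j _ => ?_
  split_ifs
  · exact le_rfl
  · exact dig_nonneg _ _ _ _

theorem mem_eset {n k : ℕ} {l : List Bool} {i j : ℕ} {x : ℤ} :
    x ∈ eset n k l i j ↔ ∃ u < n, ∃ w < n, adjB n l u w = true ∧
      x = ((n : ℤ) - u) * dig n k i j + ((n : ℤ) - w) * dig n k j i := by
  unfold eset
  simp only [List.mem_flatMap, List.mem_map, List.mem_filter, List.mem_range]
  constructor
  · rintro ⟨u, hu, w, ⟨hw, ha⟩, rfl⟩
    exact ⟨u, hu, w, hw, ha, rfl⟩
  · rintro ⟨u, hu, w, hw, ha, rfl⟩
    exact ⟨u, hu, w, ⟨hw, ha⟩, rfl⟩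

/-- The reduction is correct. -/
theorem isSum_iff (n k : ℕ) (l : List Bool) :
    IsSum (sets n k l) (tgt n k) ↔ ∃ f : ℕ → ℕ, (∀ i < k, f i < n) ∧
      ∀ i j, i < j → j < k → adjB n l (f i) (f j) = true := by
  unfold sets
  rw [isSum_map (idx_nodup k)]
  constructor
  · rintro ⟨g, hg, hs⟩
    have h1 : ∀ i, ∃ a : ℕ, i < k → a < n ∧ g (i, i) = (a : ℤ) * wt n k i := by
      intro i
      by_cases hi : i < k
      · have := (mem_clean.1 (hg (i, i) (mem_idx.2 ⟨le_rfl, hi⟩))).1
        unfold rawset vset at this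
        rw [if_pos rfl, List.mem_map] at this
        obtain ⟨a, ha, hga⟩ := this
        exact ⟨a, fun _ => ⟨List.mem_range.1 ha, hga.symm⟩⟩
      · exact ⟨0, fun h => absurd h hi⟩
    choose f hf using h1
    have h2 : ∀ i j, ∃ u w : ℕ, i < j → j < k → u < n ∧ w < n ∧ adjB n l u w = true ∧
        g (i, j) = ((n : ℤ) - u) * dig n k i j + ((n : ℤ) - w) * dig n k j i := by
      intro i j
      by_cases hij : i < j ∧ j < k
      · have := (mem_clean.1 (hg (i, j) (mem_idx.2 ⟨hij.1.le, hij.2⟩))).1
        unfold rawset at this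
        rw [if_neg (by simpa using hij.1.ne), mem_eset] at this
        obtain ⟨u, hu, w, hw, ha, hx⟩ := this
        exact ⟨u, w, fun _ _ => ⟨hu, hw, ha, hx⟩⟩
      · exact ⟨0, 0, fun h h' => absurd ⟨h, h'⟩ hij⟩
    choose u w huw using h2
    set h : ℕ → ℕ → ℕ := fun i j => if i < j then u i j else w j i with hh
    have hhn : ∀ i < k, ∀ j < k, i ≠ j → h i j < n := by
      intro i hi j hj hij
      rcases lt_or_gt_of_ne hij with hlt | hgt
      · simp only [hh, if_pos hlt]
        exact (huw i j hlt hj).1
      · simp only [hh, if_neg (not_lt.2 hgt.le)]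
        exact (huw j i hgt hi).2.1
    have hgs : ∀ j < k, ∀ i < j, g (i, j) =
        ((n : ℤ) - h i j) * dig n k i j + ((n : ℤ) - h j i) * dig n k j i := by
      intro j hj i hij
      rw [(huw i j hij hj).2.2.2]
      simp only [hh, if_pos hij, if_neg (not_lt.2 hij.le)]
    have hsum : ∑ i ∈ range k, ∑ j ∈ range k,
        (if j = i then (0 : ℤ) else ((f i : ℤ) - h i j)) * dig n k i j = 0 := by
      rw [idx_sum, Finset.sum_add_distrib] at hs
      have e1 : ∑ j ∈ range k, ∑ i ∈ range j, g (i, j) =
          ∑ j ∈ range k, ∑ i ∈ range j, (((n : ℤ) - h i j) * dig n k i j +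
            ((n : ℤ) - h j i) * dig n k j i) := by
        refine Finset.sum_congr rfl fun j hj => Finset.sum_congr rfl fun i hi => ?_
        rw [Finset.mem_range] at hi hj
        exact hgs j hj i hi
      rw [e1, tri_sum (fun i j => ((n : ℤ) - h i j) * dig n k i j)] at hs
      have e2 : ∑ j ∈ range k, g (j, j) = ∑ i ∈ range k, ∑ j ∈ range k,
          if j = i then (0 : ℤ) else (f i : ℤ) * dig n k i j := by
        refine Finset.sum_congr rfl fun i hi => ?_
        rw [Finset.mem_range] at hi
        rw [(hf i hi).2, wt_eq, Finset.mul_sum]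
        refine Finset.sum_congr rfl fun j _ => ?_
        split_ifs
        · simp
        · rfl
      have e3 : tgt n k = ∑ i ∈ range k, ∑ j ∈ range k,
          if j = i then (0 : ℤ) else (n : ℤ) * dig n k i j := by
        rw [tgt_eq]
        refine Finset.sum_congr rfl fun i _ => ?_
        rw [wt_eq, Finset.mul_sum]
        refine Finset.sum_congr rfl fun j _ => ?_
        split_ifs
        · simp
        · rfl
      rw [e2, e3, ← sub_eq_zero, ← Finset.sum_add_distrib, ← Finset.sum_sub_distrib] at hs
      refine Eq.trans ?_ hs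
      refine Finset.sum_congr rfl fun i _ => ?_
      rw [← Finset.sum_add_distrib, ← Finset.sum_sub_distrib]
      refine Finset.sum_congr rfl fun j _ => ?_
      split_ifs
      · ring
      · ring
    have hz := digits_zero₂ (n := n) (k := k)
      (fun i j => if j = i then (0 : ℤ) else ((f i : ℤ) - h i j)) ?_ hsum
    · refine ⟨f, fun i hi => (hf i hi).1, fun i j hij hj => ?_⟩
      have hi : i < k := by omega
      have z1 := hz i hi j hj
      have z2 := hz j hj i hi
      simp only [hh] at z1 z2
      rw [if_neg hij.ne', if_pos hij] at z1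
      rw [if_neg hij.ne, if_neg (not_lt.2 hij.le)] at z2
      have y1 : f i = u i j := by exact_mod_cast sub_eq_zero.1 z1
      have y2 : f j = w i j := by exact_mod_cast sub_eq_zero.1 z2
      rw [y1, y2]
      exact (huw i j hij hj).2.2.1
    · intro i hi j hj
      show |if j = i then (0 : ℤ) else ((f i : ℤ) - h i j)| < 2 * (n : ℤ) + 1
      split_ifs with hji
      · rw [abs_zero]; positivity
      · have a1 : (f i : ℤ) < n := by exact_mod_cast (hf i hi).1
        have a2 : (h i j : ℤ) < n := by exact_mod_cast hhn i hi j hj (Ne.symm hji)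
        have a3 : (0 : ℤ) ≤ f i := Int.natCast_nonneg _
        have a4 : (0 : ℤ) ≤ h i j := Int.natCast_nonneg _
        rw [abs_lt]
        constructor <;> linarith
  · rintro ⟨f, hf, hadj⟩
    set g : ℕ × ℕ → ℤ := fun p => if p.1 = p.2 then (f p.1 : ℤ) * wt n k p.1 else
      ((n : ℤ) - f p.1) * dig n k p.1 p.2 + ((n : ℤ) - f p.2) * dig n k p.2 p.1 with hg
    have hraw : ∀ p ∈ idx k, g p ∈ rawset n k l p := by
      rintro ⟨i, j⟩ hp
      obtain ⟨hij, hj⟩ := mem_idx.1 hp
      dsimp only at hij hj
      unfold rawset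
      simp only [hg]
      by_cases h : i = j
      · subst h
        rw [if_pos rfl, if_pos rfl]
        unfold vset
        exact List.mem_map.2 ⟨f i, List.mem_range.2 (hf i hj), rfl⟩
      · rw [if_neg h, if_neg h, mem_eset]
        have hlt : i < j := lt_of_le_of_ne hij h
        exact ⟨f i, hf i (by omega), f j, hf j hj, hadj i j hlt hj, rfl⟩
    have hnn : ∀ p ∈ idx k, 0 ≤ g p := by
      rintro ⟨i, j⟩ hp
      obtain ⟨hij, hj⟩ := mem_idx.1 hp
      dsimp only at hij hj
      simp only [hg]
      have a1 : (f i : ℤ) < n := by exact_mod_cast hf i (by omega)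
      have a2 : (f j : ℤ) < n := by exact_mod_cast hf j hj
      split_ifs
      · exact mul_nonneg (Int.natCast_nonneg _) (wt_nonneg _ _ _)
      · exact add_nonneg (mul_nonneg (by linarith) (dig_nonneg _ _ _ _))
          (mul_nonneg (by linarith) (dig_nonneg _ _ _ _))
    have hs : ((idx k).map g).sum = tgt n k := by
      rw [idx_sum, Finset.sum_add_distrib]
      have e1 : ∑ j ∈ range k, ∑ i ∈ range j, g (i, j) =
          ∑ j ∈ range k, ∑ i ∈ range j, (((n : ℤ) - f i) * dig n k i j +
            ((n : ℤ) - f j) * dig n k j i) := by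
        refine Finset.sum_congr rfl fun j hj => Finset.sum_congr rfl fun i hi => ?_
        rw [Finset.mem_range] at hi hj
        simp only [hg]
        rw [if_neg hi.ne]
      rw [e1, tri_sum (fun i j => ((n : ℤ) - f i) * dig n k i j), tgt_eq,
        ← Finset.sum_add_distrib]
      refine Finset.sum_congr rfl fun i _ => ?_
      simp only [hg, if_true]
      have e2 : (∑ j ∈ range k, if j = i then (0 : ℤ) else ((n : ℤ) - f i) * dig n k i j) =
          ((n : ℤ) - f i) * wt n k i := by
        rw [wt_eq, Finset.mul_sum]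
        refine Finset.sum_congr rfl fun j _ => ?_
        split_ifs
        · simp
        · rfl
      rw [e2]
      ring
    refine ⟨g, fun p hp => mem_clean.2 ⟨hraw p hp, hnn p hp, ?_⟩, hs⟩
    rw [← hs]
    refine List.single_le_sum ?_ _ (List.mem_map.2 ⟨p, hp, rfl⟩)
    intro x hx
    obtain ⟨q, hq, rfl⟩ := List.mem_map.1 hx
    exact hnn q hq

end Pool.Agent.Lib.MP_858715_lc
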