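import Pool.Agent.Lib.MP_858715_lc.Clique
import Pool.Agent.Lib.PolyTime.RatBin
import Pool.Agent.Lib.PolyTime.Bridge

/-!
# The reduction is computable in polynomial time
-/

namespace Pool.Agent.Lib.MP_858715_lc

open Pool.Agent.Lib.PolyTime PolyF Turing

variable {α : Type} [TEnc α]

/-! ### Printing -/

theorem polyF_encQ {f : α → ℚ} (hf : PolyF f) : PolyF (fun x => encQ (f x)) := by
  unfold encQ
  have h1 : PolyF (fun x => if f x < 0 then [(Sum.inr 0 : Sym)] else []) :=
    ite (hf.ratLt (const 0)) (const _) (const _)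
  have h2 : PolyF (fun x => (Nat.bits (f x).num.natAbs).map (Sum.inl : Bool → Sym)) :=
    (hf.ratNum.intNatAbs.bits).map (h := fun _ b => (Sum.inl b : Sym)) snd'.inl
  have h3 : PolyF (fun x => (Nat.bits (f x).den).map (Sum.inl : Bool → Sym)) :=
    (hf.ratDen.bits).map (h := fun _ b => (Sum.inl b : Sym)) snd'.inl
  exact (((h1.append h2).append (const _)).append h3).append (const _)

theorem polyF_encPoly {f : α → Poly} (hf : PolyF f) : PolyF (fun x => encPoly (f x)) := by
  have h1 : PolyF (fun q : α × (ℚ × ℚ) => q.2.1) := snd'.fst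
  have h2 : PolyF (fun q : α × (ℚ × ℚ) => q.2.2) := snd'.snd
  have h3 : PolyF (fun q : α × (ℚ × ℚ) => encQ q.2.1 ++ encQ q.2.2) :=
    (polyF_encQ h1).append (polyF_encQ h2)
  have h4 : PolyF (fun x => (f x).flatMap (fun p : ℚ × ℚ => encQ p.1 ++ encQ p.2)) :=
    PolyF.flatMap (l := f) (h := fun (_ : α) (p : ℚ × ℚ) => encQ p.1 ++ encQ p.2) hf h3
  exact h4.append (const [(Sum.inr 3 : Sym)])

/-! ### The polygons -/

theorem polyF_shape {L H A : α → ℤ} {S : α → List ℤ} (hL : PolyF L) (hH : PolyF H) (hA : PolyF A)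
    (hS : PolyF S) : PolyF (fun x => shape (L x) (H x) (A x) (S x)) := by
  have h1 : PolyF (fun x => notches (A x) (S x)) := by
    unfold notches
    have h2 : PolyF (fun p : α × ℤ => A p.1 + 2 * p.2) :=
      (hA.comp fst').intAdd ((const (2 : ℤ)).intMul snd')
    have h3 : PolyF (fun p : α × ℤ => A p.1 + 2 * p.2 + 1) := h2.intAdd (const (1 : ℤ))
    have h4 : PolyF (fun p : α × ℤ => [(A p.1 + 2 * p.2, (0 : ℤ)), (A p.1 + 2 * p.2, 1),
        (A p.1 + 2 * p.2 + 1, 1), (A p.1 + 2 * p.2 + 1, 0)]) :=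
      (h2.pair (const (0 : ℤ))).cons ((h2.pair (const (1 : ℤ))).cons
        ((h3.pair (const (1 : ℤ))).cons ((h3.pair (const (0 : ℤ))).cons nil)))
    exact hS.flatMap (h := fun (x : α) (v : ℤ) => [(A x + 2 * v, (0 : ℤ)), (A x + 2 * v, 1),
      (A x + 2 * v + 1, 1), (A x + 2 * v + 1, 0)]) h4
  have h2 : PolyF (fun x => shapeZ (L x) (H x) (A x) (S x)) := by
    unfold shapeZ
    have hA1 : PolyF (fun x => A x + 1) := hA.intAdd (const (1 : ℤ))
    have hH1 : PolyF (fun x => H x + 1) := hH.intAdd (const (1 : ℤ))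
    refine (const ((0 : ℤ), (0 : ℤ))).cons (h1.append ?_)
    exact (hL.pair (const (0 : ℤ))).cons ((hL.pair hH).cons ((hA1.pair hH).cons
      ((hA1.pair hH1).cons ((hA.pair hH1).cons ((hA.pair hH).cons
        (((const (0 : ℤ)).pair hH).cons nil))))))
  have h3 : PolyF (fun p : α × (ℤ × ℤ) => ((p.2.1 : ℚ), (p.2.2 : ℚ))) :=
    (ratOfInt snd'.fst).pair (ratOfInt snd'.snd)
  exact h2.map (h := fun (_ : α) (p : ℤ × ℤ) => ((p.1 : ℚ), (p.2 : ℚ))) h3

theorem polyF_numA {K : α → ℕ} {T : α → ℤ} (hK : PolyF K) (hT : PolyF T) :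
    PolyF (fun x => numA (K x) (T x)) := by
  unfold numA
  exact (((const (4 : ℤ)).intMul hT).intAdd
    ((((const (2 : ℤ)).intMul hK.intOfNat).intAdd (const (1 : ℤ))).intPow (const 2))).intAdd
      (const (13 : ℤ))

theorem polyF_cont {K : α → ℕ} {T : α → ℤ} (hK : PolyF K) (hT : PolyF T) :
    PolyF (fun x => cont (K x) (T x)) := by
  unfold cont
  have hA := polyF_numA hK hT
  exact polyF_shape ((((const (2 : ℤ)).intMul hA).intAdd ((const (4 : ℤ)).intMul hT)).intAdd
    (const (1 : ℤ))) ((const (2 : ℤ)).intMul (hK.natMax (const 1)).intOfNat) hA hT.singleton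

theorem polyF_piece {K : α → ℕ} {T : α → ℤ} {s : α → List ℤ} (hK : PolyF K) (hT : PolyF T)
    (hs : PolyF s) : PolyF (fun x => piece (K x) (T x) (s x)) := by
  unfold piece
  have hA := polyF_numA hK hT
  exact polyF_shape ((((const (2 : ℤ)).intMul hA).intAdd ((const (2 : ℤ)).intMul hT)).intAdd
    (const (1 : ℤ))) (const (2 : ℤ)) hA hs

/-! ### The lists -/

theorem polyF_idx {k : α → ℕ} (hk : PolyF k) : PolyF (fun x => idx (k x)) := by
  unfold idx
  have h1 : PolyF (fun p : α × ℕ => List.range (p.2 + 1)) := (succ snd').range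
  have h2 : PolyF (fun q : (α × ℕ) × ℕ => (q.2, q.1.2)) := snd'.pair (snd fst')
  have h3 : PolyF (fun p : α × ℕ => (List.range (p.2 + 1)).map fun i => (i, p.2)) :=
    h1.map (h := fun (p : α × ℕ) (i : ℕ) => (i, p.2)) h2
  exact hk.range.flatMap (h := fun (_ : α) (j : ℕ) => (List.range (j + 1)).map fun i => (i, j)) h3

theorem polyF_dig {n k i j : α → ℕ} (hn : PolyF n) (hk : PolyF k) (hi : PolyF i) (hj : PolyF j) :
    PolyF (fun x => dig (n x) (k x) (i x) (j x)) := by
  unfold dig
  exact (((const (2 : ℤ)).intMul hn.intOfNat).intAdd (const (1 : ℤ))).intPow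
    ((hi.natMul hk).natAdd hj)

theorem polyF_wt {n k i : α → ℕ} (hn : PolyF n) (hk : PolyF k) (hi : PolyF i) :
    PolyF (fun x => wt (n x) (k x) (i x)) := by
  unfold wt
  have h1 : PolyF (fun p : α × ℕ => if p.2 = i p.1 then (0 : ℤ) else
      dig (n p.1) (k p.1) (i p.1) p.2) :=
    ite (natEq snd' (hi.comp fst')) (const (0 : ℤ))
      (polyF_dig (hn.comp fst') (hk.comp fst') (hi.comp fst') snd')
  exact (hk.range.map (h := fun (x : α) (j : ℕ) => if j = i x then (0 : ℤ) else
    dig (n x) (k x) (i x) j) h1).intSum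

theorem polyF_vset {n k i : α → ℕ} (hn : PolyF n) (hk : PolyF k) (hi : PolyF i) :
    PolyF (fun x => vset (n x) (k x) (i x)) := by
  unfold vset
  have h1 : PolyF (fun p : α × ℕ => (p.2 : ℤ) * wt (n p.1) (k p.1) (i p.1)) :=
    (intOfNat snd').intMul (polyF_wt (hn.comp fst') (hk.comp fst') (hi.comp fst'))
  exact hn.range.map (h := fun (x : α) (v : ℕ) => (v : ℤ) * wt (n x) (k x) (i x)) h1

theorem polyF_adjB {n a b : α → ℕ} {l : α → List Bool} (hn : PolyF n) (hl : PolyF l)
    (ha : PolyF a) (hb : PolyF b) : PolyF (fun x => adjB (n x) (l x) (a x) (b x)) := by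
  unfold adjB
  exact (((ha.natMul hn).natAdd hb).getElem? hl).getD (const false)

theorem polyF_eset {n k i j : α → ℕ} {l : α → List Bool} (hn : PolyF n) (hk : PolyF k)
    (hl : PolyF l) (hi : PolyF i) (hj : PolyF j) :
    PolyF (fun x => eset (n x) (k x) (l x) (i x) (j x)) := by
  unfold eset
  have hx : PolyF (fun q : (α × ℕ) × ℕ => q.1.1) := fst fst'
  have hu : PolyF (fun q : (α × ℕ) × ℕ => q.1.2) := snd fst'
  have hw : PolyF (fun q : (α × ℕ) × ℕ => q.2) := snd'
  have h1 : PolyF (fun q : (α × ℕ) × ℕ => adjB (n q.1.1) (l q.1.1) q.1.2 q.2) :=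
    polyF_adjB (hn.comp hx) (hl.comp hx) hu hw
  have h2 : PolyF (fun q : (α × ℕ) × ℕ =>
      ((n q.1.1 : ℤ) - (q.1.2 : ℕ)) * dig (n q.1.1) (k q.1.1) (i q.1.1) (j q.1.1) +
      ((n q.1.1 : ℤ) - (q.2 : ℕ)) * dig (n q.1.1) (k q.1.1) (j q.1.1) (i q.1.1)) :=
    (((intOfNat (hn.comp hx)).intSub (intOfNat hu)).intMul
      (polyF_dig (hn.comp hx) (hk.comp hx) (hi.comp hx) (hj.comp hx))).intAdd
      (((intOfNat (hn.comp hx)).intSub (intOfNat hw)).intMul
      (polyF_dig (hn.comp hx) (hk.comp hx) (hj.comp hx) (hi.comp hx)))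
  have h3 : PolyF (fun p : α × ℕ => List.range (n p.1)) := (hn.comp fst').range
  have h4 : PolyF (fun p : α × ℕ => (List.range (n p.1)).filter
      fun w => adjB (n p.1) (l p.1) p.2 w) :=
    h3.filter (p := fun (p : α × ℕ) (w : ℕ) => adjB (n p.1) (l p.1) p.2 w) h1
  have h5 : PolyF (fun p : α × ℕ => ((List.range (n p.1)).filter
      fun w => adjB (n p.1) (l p.1) p.2 w).map fun w : ℕ =>
        ((n p.1 : ℤ) - (p.2 : ℕ)) * dig (n p.1) (k p.1) (i p.1) (j p.1) +
        ((n p.1 : ℤ) - w) * dig (n p.1) (k p.1) (j p.1) (i p.1)) :=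
    h4.map (h := fun (p : α × ℕ) (w : ℕ) =>
      ((n p.1 : ℤ) - (p.2 : ℕ)) * dig (n p.1) (k p.1) (i p.1) (j p.1) +
      ((n p.1 : ℤ) - w) * dig (n p.1) (k p.1) (j p.1) (i p.1)) h2
  exact hn.range.flatMap (h := fun (x : α) (u : ℕ) => ((List.range (n x)).filter
    fun w => adjB (n x) (l x) u w).map fun w : ℕ => ((n x : ℤ) - u) * dig (n x) (k x) (i x) (j x) +
      ((n x : ℤ) - w) * dig (n x) (k x) (j x) (i x)) h5

theorem polyF_tgt {n k : α → ℕ} (hn : PolyF n) (hk : PolyF k) :
    PolyF (fun x => tgt (n x) (k x)) := by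
  unfold tgt
  have h1 : PolyF (fun p : α × ℕ => (n p.1 : ℤ) * wt (n p.1) (k p.1) p.2) :=
    (intOfNat (hn.comp fst')).intMul (polyF_wt (hn.comp fst') (hk.comp fst') snd')
  exact (hk.range.map (h := fun (x : α) (i : ℕ) => (n x : ℤ) * wt (n x) (k x) i) h1).intSum

theorem polyF_clean {T : α → ℤ} {s : α → List ℤ} (hT : PolyF T) (hs : PolyF s) :
    PolyF (fun x => clean (T x) (s x)) := by
  unfold clean
  have h1 : PolyF (fun p : α × ℤ => decide (0 ≤ p.2 ∧ p.2 ≤ T p.1)) :=
    ((const (0 : ℤ)).intLe snd').decide_and (intLe snd' (hT.comp fst'))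
  have h2 : PolyF (fun x => (s x).filter fun v => decide (0 ≤ v ∧ v ≤ T x)) :=
    hs.filter (p := fun (x : α) (v : ℤ) => decide (0 ≤ v ∧ v ≤ T x)) h1
  have h3 : PolyF (fun p : ℤ × ℤ => decide (p.1 ≤ p.2)) := intLe fst' snd'
  exact PolyF.insertionSort (r := fun a b : ℤ => a ≤ b) h3 h2.dedup

theorem polyF_sets {n k : α → ℕ} {l : α → List Bool} (hn : PolyF n) (hk : PolyF k)
    (hl : PolyF l) : PolyF (fun x => sets (n x) (k x) (l x)) := by
  unfold sets
  have hx : PolyF (fun q : α × (ℕ × ℕ) => q.1) := fst'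
  have hi : PolyF (fun q : α × (ℕ × ℕ) => q.2.1) := fst snd'
  have hj : PolyF (fun q : α × (ℕ × ℕ) => q.2.2) := snd snd'
  have h1 : PolyF (fun q : α × (ℕ × ℕ) => rawset (n q.1) (k q.1) (l q.1) q.2) := by
    unfold rawset
    exact ite (hi.natEq hj) (polyF_vset (hn.comp hx) (hk.comp hx) hi)
      (polyF_eset (hn.comp hx) (hk.comp hx) (hl.comp hx) hi hj)
  have h2 : PolyF (fun q : α × (ℕ × ℕ) => clean (tgt (n q.1) (k q.1))
      (rawset (n q.1) (k q.1) (l q.1) q.2)) :=
    polyF_clean (polyF_tgt (hn.comp hx) (hk.comp hx)) h1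
  exact (polyF_idx hk).map (h := fun (x : α) (p : ℕ × ℕ) =>
    clean (tgt (n x) (k x)) (rawset (n x) (k x) (l x) p)) h2

theorem polyF_mkInst {n k : α → ℕ} {l : α → List Bool} (hn : PolyF n) (hk : PolyF k)
    (hl : PolyF l) : PolyF (fun x => (mkInst (n x) (k x) (l x)).encode) := by
  show PolyF (fun x => encPoly (cont (sets (n x) (k x) (l x)).length (tgt (n x) (k x))) ++
    ((sets (n x) (k x) (l x)).map (piece (sets (n x) (k x) (l x)).length
      (tgt (n x) (k x)))).flatMap encPoly)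
  have hs := polyF_sets hn hk hl
  have hT := polyF_tgt hn hk
  have h1 : PolyF (fun q : α × List ℤ => piece (sets (n q.1) (k q.1) (l q.1)).length
      (tgt (n q.1) (k q.1)) q.2) :=
    polyF_piece (hs.length.comp fst') (hT.comp fst') snd'
  have h2 : PolyF (fun x => (sets (n x) (k x) (l x)).map
      (piece (sets (n x) (k x) (l x)).length (tgt (n x) (k x)))) :=
    hs.map (h := fun (x : α) (s : List ℤ) => piece (sets (n x) (k x) (l x)).length
      (tgt (n x) (k x)) s) h1
  have h3 : PolyF (fun q : α × Poly => encPoly q.2) := polyF_encPoly snd'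
  exact (polyF_encPoly (polyF_cont hs.length hT)).append
    (h2.flatMap (h := fun (_ : α) (P : Poly) => encPoly P) h3)

/-! ### Reading the input -/

/-- The number `k` of a word. -/
def rdK (w : List (Bool ⊕ Fin 2)) : ℕ := (w.filter fun a => decide (a = Sum.inr 0)).length

/-- The number `n` of a word. -/
def rdN (w : List (Bool ⊕ Fin 2)) : ℕ := (w.filter fun a => decide (a = Sum.inr 1)).length

/-- The bits of a word. -/
def rdL (w : List (Bool ⊕ Fin 2)) : List Bool :=
  w.filterMap fun a => Sum.elim some (fun _ => none) a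

theorem encode_eq (I : CliqueInst) : I.encode =
    List.replicate I.k (Sum.inr 0) ++ List.replicate I.n (Sum.inr 1) ++ I.bits.map Sum.inl := by
  unfold CliqueInst.encode CliqueInst.bits
  rw [List.map_flatten, List.map_ofFn]
  congr 3
  funext i
  rw [Function.comp_apply, List.map_ofFn]
  rfl

theorem rdK_encode (I : CliqueInst) : rdK I.encode = I.k := by
  rw [encode_eq]
  unfold rdK
  rw [List.filter_append, List.filter_append, List.filter_replicate, List.filter_replicate,
    if_pos (by decide), if_neg (by decide)]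
  have : (I.bits.map Sum.inl).filter (fun a : Bool ⊕ Fin 2 => decide (a = Sum.inr 0)) = [] := by
    rw [List.filter_eq_nil_iff]
    intro a ha
    rw [List.mem_map] at ha
    obtain ⟨b, _, rfl⟩ := ha
    simp
  rw [this]
  simp

theorem rdN_encode (I : CliqueInst) : rdN I.encode = I.n := by
  rw [encode_eq]
  unfold rdN
  rw [List.filter_append, List.filter_append, List.filter_replicate, List.filter_replicate,
    if_neg (by decide), if_pos (by decide)]
  have : (I.bits.map Sum.inl).filter (fun a : Bool ⊕ Fin 2 => decide (a = Sum.inr 1)) = [] := by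
    rw [List.filter_eq_nil_iff]
    intro a ha
    rw [List.mem_map] at ha
    obtain ⟨b, _, rfl⟩ := ha
    simp
  rw [this]
  simp

theorem rdL_encode (I : CliqueInst) : rdL I.encode = I.bits := by
  rw [encode_eq]
  unfold rdL
  rw [List.filterMap_append, List.filterMap_append, List.filterMap_map]
  have h1 : ∀ (m : ℕ) (c : Fin 2), (List.replicate m (Sum.inr c : Bool ⊕ Fin 2)).filterMap
      (fun a => Sum.elim some (fun _ => none) a) = [] := by
    intro m c
    rw [List.filterMap_eq_nil_iff]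
    intro a ha
    rw [List.eq_of_mem_replicate ha]
    rfl
  rw [h1, h1]
  simp only [List.nil_append]
  exact List.filterMap_some

theorem tm2_red : Nonempty (TM2ComputableInPolyTime CliqueInst.encode Inst.encode red) := by
  have h1 : PolyF rdK :=
    (PolyF.id.filter (p := fun _ a => decide (a = (Sum.inr 0 : Bool ⊕ Fin 2)))
      (snd'.eqConst _)).length
  have h2 : PolyF rdN :=
    (PolyF.id.filter (p := fun _ a => decide (a = (Sum.inr 1 : Bool ⊕ Fin 2)))
      (snd'.eqConst _)).length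
  have h3 : PolyF rdL :=
    PolyF.id.filterMap (h := fun _ a => Sum.elim some (fun _ => none) a)
      (snd'.finComp (fun a : Bool ⊕ Fin 2 => (Sum.elim some (fun _ => none) a : Option Bool)))
  refine (polyF_mkInst h2 h1 h3).tm2 fun I => ?_
  rw [rdK_encode, rdN_encode, rdL_encode]
  rfl

end Pool.Agent.Lib.MP_858715_lc
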