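import Pool.Agent.Lib.MP_858715_lc.Region

/-!
# `shape` is a simple polygon
-/

namespace Pool.Agent.Lib.MP_858715_lc

/-- The segment of an integer edge. -/
def segZ (e : (ℤ × ℤ) × (ℤ × ℤ)) : Set (ℝ × ℝ) := segment ℝ (ptZ e.1) (ptZ e.2)

/-- Two edges only meet in a common vertex, where one ends and the other starts. -/
def Rel (e e' : (ℤ × ℤ) × (ℤ × ℤ)) : Prop :=
  ∀ z, z ∈ segZ e → z ∈ segZ e' → (z = ptZ e.2 ∧ e.2 = e'.1) ∨ (z = ptZ e.1 ∧ e.1 = e'.2)

theorem Rel.symm {e e' : (ℤ × ℤ) × (ℤ × ℤ)} (h : Rel e e') : Rel e' e := by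
  intro z hz hz'
  rcases h z hz' hz with ⟨h1, h2⟩ | ⟨h1, h2⟩
  · exact Or.inr ⟨by rw [h1, h2], h2.symm⟩
  · exact Or.inl ⟨by rw [h1, h2], h2.symm⟩

theorem segZ_h {x x' y : ℤ} (h : x ≤ x') (z : ℝ × ℝ) :
    z ∈ segZ ((x, y), (x', y)) ↔ z.2 = y ∧ (x : ℝ) ≤ z.1 ∧ z.1 ≤ x' := by
  unfold segZ ptZ
  exact mem_hseg (by exact_mod_cast h) z

theorem segZ_h' {x x' y : ℤ} (h : x' ≤ x) (z : ℝ × ℝ) :
    z ∈ segZ ((x, y), (x', y)) ↔ z.2 = y ∧ (x' : ℝ) ≤ z.1 ∧ z.1 ≤ x := by
  unfold segZ ptZ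
  exact mem_hseg' (by exact_mod_cast h) z

theorem segZ_v {x y y' : ℤ} (h : y ≤ y') (z : ℝ × ℝ) :
    z ∈ segZ ((x, y), (x, y')) ↔ z.1 = x ∧ (y : ℝ) ≤ z.2 ∧ z.2 ≤ y' := by
  unfold segZ ptZ
  exact mem_vseg (by exact_mod_cast h) z

theorem segZ_v' {x y y' : ℤ} (h : y' ≤ y) (z : ℝ × ℝ) :
    z ∈ segZ ((x, y), (x, y')) ↔ z.1 = x ∧ (y' : ℝ) ≤ z.2 ∧ z.2 ≤ y := by
  unfold segZ ptZ
  exact mem_vseg' (by exact_mod_cast h) z

/-- The edges of the lower chain. -/
def lower (L A x : ℤ) (S : List ℤ) : List ((ℤ × ℤ) × (ℤ × ℤ)) :=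
  steps (x, 0) (notches A S ++ [(L, 0)])

theorem lower_nil (L A x : ℤ) : lower L A x [] = [((x, 0), (L, 0))] := rfl

theorem lower_cons (L A x v : ℤ) (S : List ℤ) : lower L A x (v :: S) =
    ((x, 0), (A + 2 * v, 0)) :: ((A + 2 * v, 0), (A + 2 * v, 1)) ::
      ((A + 2 * v, 1), (A + 2 * v + 1, 1)) :: ((A + 2 * v + 1, 1), (A + 2 * v + 1, 0)) ::
        lower L A (A + 2 * v + 1) S := by
  unfold lower
  have e1 : notches A (v :: S) ++ [(L, 0)] = (A + 2 * v, 0) :: (A + 2 * v, 1) ::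
      (A + 2 * v + 1, 1) :: (A + 2 * v + 1, 0) :: (notches A S ++ [(L, 0)]) := by
    simp [notches]
  rw [e1]
  rfl

theorem lower_left (L A : ℤ) (S : List ℤ) : ∀ x : ℤ, S.Pairwise (· < ·) →
    (∀ v ∈ S, x < A + 2 * v ∧ A + 2 * v + 1 < L) → x < L →
    ∀ e ∈ lower L A x S, ∀ z ∈ segZ e, (x : ℝ) ≤ z.1 ∧ z.1 ≤ L ∧ 0 ≤ z.2 ∧ z.2 ≤ 1 ∧
      (z.1 = x → z.2 = 0 ∧ e.1 = (x, 0)) ∧ (z.1 = L → z.2 = 0 ∧ e.2 = (L, 0)) := by
  induction S with
  | nil =>
    intro x _ _ hx e he z hz
    rw [lower_nil, List.mem_singleton] at he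
    subst he
    rw [segZ_h hx.le] at hz
    obtain ⟨h1, h2, h3⟩ := hz
    rw [Int.cast_zero] at h1
    exact ⟨h2, h3, h1.ge, by linarith, fun _ => ⟨h1, rfl⟩, fun _ => ⟨h1, rfl⟩⟩
  | cons v S ih =>
    intro x hS hv hx e he z hz
    rw [List.pairwise_cons] at hS
    obtain ⟨hxv, hvL⟩ := hv v List.mem_cons_self
    have hx' : (x : ℝ) < (A : ℝ) + 2 * v := by exact_mod_cast hxv
    have hL' : (A : ℝ) + 2 * v + 1 < L := by exact_mod_cast hvL
    rw [lower_cons] at he
    simp only [List.mem_cons] at he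
    rcases he with rfl | rfl | rfl | rfl | he
    · rw [segZ_h hxv.le] at hz
      push_cast at hz
      obtain ⟨h1, h2, h3⟩ := hz
      exact ⟨h2, by linarith, by linarith, by linarith, fun _ => ⟨h1, rfl⟩,
        fun h => by exfalso; linarith⟩
    · rw [segZ_v zero_le_one] at hz
      push_cast at hz
      obtain ⟨h1, h2, h3⟩ := hz
      exact ⟨by linarith, by linarith, h2, h3, fun h => by exfalso; linarith,
        fun h => by exfalso; linarith⟩
    · rw [segZ_h (by omega)] at hz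
      push_cast at hz
      obtain ⟨h1, h2, h3⟩ := hz
      exact ⟨by linarith, by linarith, by linarith, by linarith, fun h => by exfalso; linarith,
        fun h => by exfalso; linarith⟩
    · rw [segZ_v' zero_le_one] at hz
      push_cast at hz
      obtain ⟨h1, h2, h3⟩ := hz
      exact ⟨by linarith, by linarith, h2, h3, fun h => by exfalso; linarith,
        fun h => by exfalso; linarith⟩
    · have hlt : ∀ v' ∈ S, A + 2 * v + 1 < A + 2 * v' := by
        intro v' hv'
        have := hS.1 v' hv'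
        omega
      obtain ⟨h1, h2, h3, h4, h5, h6⟩ := ih (A + 2 * v + 1) hS.2
        (fun v' hv' => ⟨hlt v' hv', (hv v' (List.mem_cons_of_mem _ hv')).2⟩) hvL e he z hz
      push_cast at h1
      exact ⟨by linarith, h2, h3, h4, fun h => by exfalso; linarith, h6⟩

theorem ptZ_ext {z : ℝ × ℝ} {x y : ℤ} (h1 : z.1 = x) (h2 : z.2 = y) : z = ptZ (x, y) :=
  Prod.ext h1 h2

theorem lower_pairwise (L A : ℤ) (S : List ℤ) : ∀ x : ℤ, S.Pairwise (· < ·) →
    (∀ v ∈ S, x < A + 2 * v ∧ A + 2 * v + 1 < L) → x < L → (lower L A x S).Pairwise Rel := by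
  induction S with
  | nil =>
    intro x _ _ _
    rw [lower_nil]
    exact List.pairwise_singleton _ _
  | cons v S ih =>
    intro x hS hv hx
    rw [List.pairwise_cons] at hS
    obtain ⟨hxv, hvL⟩ := hv v List.mem_cons_self
    have hx' : (x : ℝ) < (A : ℝ) + 2 * v := by exact_mod_cast hxv
    have hL' : (A : ℝ) + 2 * v + 1 < L := by exact_mod_cast hvL
    have hlt : ∀ v' ∈ S, A + 2 * v + 1 < A + 2 * v' := by
      intro v' hv'
      have := hS.1 v' hv'
      omega
    have hS' : ∀ v' ∈ S, A + 2 * v + 1 < A + 2 * v' ∧ A + 2 * v' + 1 < L :=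
      fun v' hv' => ⟨hlt v' hv', (hv v' (List.mem_cons_of_mem _ hv')).2⟩
    have hrest := lower_left L A S (A + 2 * v + 1) hS.2 hS' hvL
    rw [lower_cons, List.pairwise_cons, List.pairwise_cons, List.pairwise_cons,
      List.pairwise_cons]
    refine ⟨?_, ?_, ?_, ?_, ih _ hS.2 hS' hvL⟩
    · intro e he z hz hz'
      rw [segZ_h hxv.le] at hz
      push_cast at hz
      obtain ⟨h1, h2, h3⟩ := hz
      simp only [List.mem_cons] at he
      rcases he with rfl | rfl | rfl | he
      · rw [segZ_v zero_le_one] at hz'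
        push_cast at hz'
        exact Or.inl ⟨ptZ_ext (by push_cast; exact hz'.1) (by push_cast; exact h1), rfl⟩
      · rw [segZ_h (by omega)] at hz'
        push_cast at hz'
        exfalso; linarith [hz'.1]
      · rw [segZ_v' zero_le_one] at hz'
        push_cast at hz'
        exfalso; linarith [hz'.1]
      · have := (hrest e he z hz').1
        push_cast at this
        exfalso; linarith
    · intro e he z hz hz'
      rw [segZ_v zero_le_one] at hz
      push_cast at hz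
      obtain ⟨h1, h2, h3⟩ := hz
      simp only [List.mem_cons] at he
      rcases he with rfl | rfl | he
      · rw [segZ_h (by omega)] at hz'
        push_cast at hz'
        exact Or.inl ⟨ptZ_ext (by push_cast; exact h1) (by push_cast; exact hz'.1), rfl⟩
      · rw [segZ_v' zero_le_one] at hz'
        push_cast at hz'
        exfalso; linarith [hz'.1]
      · have := (hrest e he z hz').1
        push_cast at this
        exfalso; linarith
    · intro e he z hz hz'
      rw [segZ_h (by omega)] at hz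
      push_cast at hz
      obtain ⟨h1, h2, h3⟩ := hz
      simp only [List.mem_cons] at he
      rcases he with rfl | he
      · rw [segZ_v' zero_le_one] at hz'
        push_cast at hz'
        exact Or.inl ⟨ptZ_ext (by push_cast; exact hz'.1) (by push_cast; exact h1), rfl⟩
      · obtain ⟨h4, _, _, _, h5, _⟩ := hrest e he z hz'
        push_cast at h4 h5
        have := (h5 (le_antisymm h3 h4)).1
        exfalso; linarith
    · intro e he z hz hz'
      rw [segZ_v' zero_le_one] at hz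
      push_cast at hz
      obtain ⟨h1, h2, h3⟩ := hz
      obtain ⟨h4, _, _, _, h5, _⟩ := hrest e he z hz'
      push_cast at h4 h5
      obtain ⟨h6, h7⟩ := h5 h1
      exact Or.inl ⟨ptZ_ext (by push_cast; exact h1) (by push_cast; exact h6), h7.symm⟩

/-- The other edges. -/
def upper (L H A : ℤ) : List ((ℤ × ℤ) × (ℤ × ℤ)) :=
  [((L, 0), (L, H)), ((L, H), (A + 1, H)), ((A + 1, H), (A + 1, H + 1)),
    ((A + 1, H + 1), (A, H + 1)), ((A, H + 1), (A, H)), ((A, H), (0, H)), ((0, H), (0, 0))]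

theorem upper_pairwise {L H A : ℤ} {S : List ℤ} (g : Good L H A S) :
    (upper L H A).Pairwise Rel := by
  have hA := g.hA
  have hL := g.hL
  have hH := g.hH
  have hA' : (0 : ℝ) < A := by exact_mod_cast hA
  have hL' : (A : ℝ) + 1 < L := by exact_mod_cast hL
  have hH' : (2 : ℝ) ≤ H := by exact_mod_cast hH
  have hH0 : (0 : ℤ) ≤ H := by omega
  have hH1 : H ≤ H + 1 := by omega
  have hA1 : A ≤ A + 1 := by omega
  unfold upper
  simp only [List.pairwise_cons, List.mem_cons, List.not_mem_nil, or_false, forall_eq_or_imp,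
    forall_eq, IsEmpty.forall_iff, implies_true, List.Pairwise.nil, and_true]
  refine ⟨⟨?_, ?_, ?_, ?_, ?_, ?_⟩, ⟨?_, ?_, ?_, ?_, ?_⟩, ⟨?_, ?_, ?_, ?_⟩, ⟨?_, ?_, ?_⟩,
    ⟨?_, ?_⟩, ?_⟩
  all_goals
    intro z hz hz'
    simp only [segZ_v hH0, segZ_h' hL.le, segZ_v hH1, segZ_h' hA1, segZ_v' hH1, segZ_h' hA.le,
      segZ_v' hH0] at hz hz'
    push_cast at hz hz'
    obtain ⟨h1, h2, h3⟩ := hz
    obtain ⟨h4, h5, h6⟩ := hz'
    first
    | (exfalso; linarith)
    | exact Or.inl ⟨ptZ_ext (by push_cast; linarith) (by push_cast; linarith), rfl⟩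

theorem steps_append_cons {α : Type*} (q : α) (R : List α) (l : List α) : ∀ p : α,
    steps p (l ++ q :: R) = steps p (l ++ [q]) ++ steps q R := by
  induction l with
  | nil => intro p; rfl
  | cons a l ih => intro p; simp only [List.cons_append, steps, ih a]

theorem simple_aux {L H A : ℤ} {S : List ℤ} (g : Good L H A S) :
    (steps (0, 0) (notches A S ++
      [(L, 0), (L, H), (A + 1, H), (A + 1, H + 1), (A, H + 1), (A, H), (0, H), (0, 0)])).Pairwise
        Rel := by
  have hA := g.hA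
  have hL := g.hL
  have hH := g.hH
  have hv : ∀ v ∈ S, (0 : ℤ) < A + 2 * v ∧ A + 2 * v + 1 < L := by
    intro v hv
    have := g.hv v hv
    omega
  rw [steps_append_cons]
  have e1 : steps (L, (0 : ℤ)) [(L, H), (A + 1, H), (A + 1, H + 1), (A, H + 1), (A, H), (0, H),
      (0, 0)] = upper L H A := rfl
  have e2 : steps ((0 : ℤ), (0 : ℤ)) (notches A S ++ [(L, 0)]) = lower L A 0 S := rfl
  rw [e1, e2, List.pairwise_append]
  refine ⟨lower_pairwise L A S 0 g.hS hv (by omega), upper_pairwise g, ?_⟩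
  intro e he e' he' z hz hz'
  obtain ⟨h1, h2, h3, h4, h5, h6⟩ := lower_left L A S 0 g.hS hv (by omega) e he z hz
  have hA' : (0 : ℝ) < A := by exact_mod_cast hA
  have hL' : (A : ℝ) + 1 < L := by exact_mod_cast hL
  have hH' : (2 : ℝ) ≤ H := by exact_mod_cast hH
  have hH0 : (0 : ℤ) ≤ H := by omega
  have hH1 : H ≤ H + 1 := by omega
  have hA1 : A ≤ A + 1 := by omega
  unfold upper at he'
  simp only [List.mem_cons, List.not_mem_nil, or_false] at he'
  rcases he' with rfl | rfl | rfl | rfl | rfl | rfl | rfl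
  · rw [segZ_v hH0] at hz'
    obtain ⟨h7, h8⟩ := h6 hz'.1
    rw [h8]
    exact Or.inl ⟨ptZ_ext hz'.1 (by push_cast; exact h7), rfl⟩
  all_goals
    simp only [segZ_h' hL.le, segZ_v hH1, segZ_h' hA1, segZ_v' hH1, segZ_h' hA.le,
      segZ_v' hH0] at hz'
    push_cast at hz'
    obtain ⟨h7, h8, h9⟩ := hz'
    first
    | (exfalso; linarith)
    | skip
  obtain ⟨h10, h11⟩ := h5 (by push_cast; exact h7)
  rw [h11]
  exact Or.inr ⟨ptZ_ext (by push_cast; exact h7) (by push_cast; exact h10), rfl⟩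

theorem notches_mem {A : ℤ} {S : List ℤ} {x : ℤ} (hv : ∀ v ∈ S, x < A + 2 * v) :
    ∀ p ∈ notches A S, x < p.1 ∧ (p.2 = 0 ∨ p.2 = 1) := by
  intro p hp
  unfold notches at hp
  rw [List.mem_flatMap] at hp
  obtain ⟨v, hvS, hp⟩ := hp
  have := hv v hvS
  simp only [List.mem_cons, List.not_mem_nil, or_false] at hp
  rcases hp with rfl | rfl | rfl | rfl
  · exact ⟨this, Or.inl rfl⟩
  · exact ⟨this, Or.inr rfl⟩
  · exact ⟨by show x < A + 2 * v + 1; omega, Or.inr rfl⟩
  · exact ⟨by show x < A + 2 * v + 1; omega, Or.inl rfl⟩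

theorem notches_lt {A L : ℤ} {S : List ℤ} (hv : ∀ v ∈ S, A + 2 * v + 1 < L) :
    ∀ p ∈ notches A S, p.1 < L := by
  intro p hp
  unfold notches at hp
  rw [List.mem_flatMap] at hp
  obtain ⟨v, hvS, hp⟩ := hp
  have := hv v hvS
  simp only [List.mem_cons, List.not_mem_nil, or_false] at hp
  rcases hp with rfl | rfl | rfl | rfl
  · show A + 2 * v < L; omega
  · show A + 2 * v < L; omega
  · exact this
  · exact this

theorem notches_nodup (A : ℤ) (S : List ℤ) (hS : S.Pairwise (· < ·)) : (notches A S).Nodup := by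
  induction S with
  | nil => exact List.nodup_nil
  | cons v S ih =>
    rw [List.pairwise_cons] at hS
    have e1 : notches A (v :: S) = [(A + 2 * v, 0), (A + 2 * v, 1),
        (A + 2 * v + 1, 1), (A + 2 * v + 1, 0)] ++ notches A S := by
      simp [notches]
    rw [e1, List.nodup_append]
    refine ⟨?_, ih hS.2, ?_⟩
    · simp
    · intro p hp q hq hpq
      subst hpq
      have h1 := (notches_mem (x := A + 2 * v + 1) (fun v' hv' => by
        have := hS.1 v' hv'
        omega) p hq).1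
      simp only [List.mem_cons, List.not_mem_nil, or_false] at hp
      rcases hp with rfl | rfl | rfl | rfl <;> simp at h1

theorem shapeZ_nodup {L H A : ℤ} {S : List ℤ} (g : Good L H A S) : (shapeZ L H A S).Nodup := by
  have hA := g.hA
  have hL := g.hL
  have hH := g.hH
  have hm := notches_mem (A := A) (S := S) (x := 0) (fun v hv => by
    have := g.hv v hv
    omega)
  have hlt := notches_lt (A := A) (S := S) (L := L) (fun v hv => (g.hv v hv).2)
  unfold shapeZ
  rw [List.nodup_cons, List.nodup_append]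
  refine ⟨?_, notches_nodup A S g.hS, ?_, ?_⟩
  · rw [List.mem_append, not_or]
    refine ⟨fun h => by simpa using (hm _ h).1, ?_⟩
    simp only [List.mem_cons, Prod.mk.injEq, List.not_mem_nil, or_false, not_or, not_and]
    refine ⟨?_, ?_, ?_, ?_, ?_, ?_, ?_⟩ <;> intros <;> omega
  · simp only [List.nodup_cons, List.mem_cons, Prod.mk.injEq, List.not_mem_nil, or_false,
      not_or, not_and, not_false_eq_true, List.nodup_nil, and_true]
    refine ⟨⟨?_, ?_, ?_, ?_, ?_, ?_⟩, ⟨?_, ?_, ?_, ?_, ?_⟩, ⟨?_, ?_, ?_, ?_⟩, ⟨?_, ?_, ?_⟩,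
      ⟨?_, ?_⟩, ?_⟩ <;> intros <;> omega
  · intro p hp q hq hpq
    subst hpq
    have h1 := hm p hp
    have h2 := hlt p hp
    simp only [List.mem_cons, List.not_mem_nil, or_false] at hq
    rcases hq with rfl | rfl | rfl | rfl | rfl | rfl | rfl <;> simp only at h1 h2 <;> omega

theorem simple_shape {L H A : ℤ} {S : List ℤ} (g : Good L H A S) : IsSimple (shape L H A S) := by
  have hinj : Function.Injective (fun p : ℤ × ℤ => ((p.1 : ℚ), (p.2 : ℚ))) := by
    intro p q h
    simp only [Prod.mk.injEq, Int.cast_inj] at h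
    exact Prod.ext h.1 h.2
  refine ⟨?_, (shapeZ_nodup g).map hinj, ?_⟩
  · unfold shape shapeZ
    simp
  · have hedges : edges (shape L H A S) = (steps (0, 0) (notches A S ++
        [(L, 0), (L, H), (A + 1, H), (A + 1, H + 1), (A, H + 1), (A, H), (0, H), (0, 0)])).map
          (fun e => (((e.1.1 : ℚ), (e.1.2 : ℚ)), ((e.2.1 : ℚ), (e.2.2 : ℚ)))) := by
      unfold shape shapeZ
      rw [List.map_cons, edges_cons]
      have h1 : (List.map (fun p : ℤ × ℤ => ((p.1 : ℚ), (p.2 : ℚ)))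
          (notches A S ++ [(L, 0), (L, H), (A + 1, H), (A + 1, H + 1), (A, H + 1), (A, H),
            (0, H)]) ++ [(fun p : ℤ × ℤ => ((p.1 : ℚ), (p.2 : ℚ))) (0, 0)]) =
          List.map (fun p : ℤ × ℤ => ((p.1 : ℚ), (p.2 : ℚ))) (notches A S ++
          [(L, 0), (L, H), (A + 1, H), (A + 1, H + 1), (A, H + 1), (A, H), (0, H), (0, 0)]) := by
        simp
      rw [h1, steps_map (fun p : ℤ × ℤ => ((p.1 : ℚ), (p.2 : ℚ)))]
    have hpw := simple_aux g
    have hsymm : Std.Symm Rel := ⟨fun _ _ h => Rel.symm h⟩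
    have hall := fun {a b : (ℤ × ℤ) × (ℤ × ℤ)} ha hb hab => hpw.forall (a := a) (b := b) ha hb hab
    intro e he e' he' hne z hz
    rw [hedges, List.mem_map] at he he'
    obtain ⟨e0, he0, rfl⟩ := he
    obtain ⟨e1, he1, rfl⟩ := he'
    have hne' : e0 ≠ e1 := by
      rintro rfl
      exact hne rfl
    have hz1 : z ∈ segZ e0 := by
      have := hz.1
      simpa [seg, toPt, segZ, ptZ] using this
    have hz2 : z ∈ segZ e1 := by
      have := hz.2
      simpa [seg, toPt, segZ, ptZ] using this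
    rcases hall he0 he1 hne' z hz1 hz2 with ⟨h1, h2⟩ | ⟨h1, h2⟩
    · left
      refine ⟨?_, ?_⟩
      · rw [h1]
        simp [ptZ, toPt]
      · rw [h2]
    · right
      refine ⟨?_, ?_⟩
      · rw [h1]
        simp [ptZ, toPt]
      · rw [h2]

end Pool.Agent.Lib.MP_858715_lc
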