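import Pool.Agent.Lib.MP_858715_lc.Sound
import Pool.Agent.Lib.MP_858715_lc.Complete
import Pool.Agent.Lib.MP_858715_lc.Simple
import Pool.Agent.Lib.MP_858715_lc.KSum

/-!
# The instance of geometric packing
-/

namespace Pool.Agent.Lib.MP_858715_lc

/-- The distance of the teeth from the left end. -/
def numA (K : ℕ) (T : ℤ) : ℤ := 4 * T + (2 * (K : ℤ) + 1) ^ 2 + 13

/-- The container. -/
def cont (K : ℕ) (T : ℤ) : Poly :=
  shape (2 * numA K T + 4 * T + 1) (2 * ((max K 1 : ℕ) : ℤ)) (numA K T) [T]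

/-- A piece. -/
def piece (K : ℕ) (T : ℤ) (s : List ℤ) : Poly :=
  shape (2 * numA K T + 2 * T + 1) 2 (numA K T) s

theorem numA_ge {K : ℕ} {T : ℤ} : 4 * T + 13 ≤ numA K T := by
  unfold numA
  nlinarith [sq_nonneg (2 * (K : ℤ) + 1)]

theorem good_cont {K : ℕ} {T : ℤ} (hT : 0 ≤ T) :
    Good (2 * numA K T + 4 * T + 1) (2 * ((max K 1 : ℕ) : ℤ)) (numA K T) [T] := by
  have hA := numA_ge (K := K) (T := T)
  refine ⟨List.pairwise_singleton _ _, ?_, by linarith, by linarith, ?_⟩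
  · intro v hv
    rw [List.mem_singleton] at hv
    subst hv
    exact ⟨hT, by linarith⟩
  · have : (1 : ℤ) ≤ ((max K 1 : ℕ) : ℤ) := by exact_mod_cast le_max_right K 1
    linarith

theorem good_piece {K : ℕ} {T : ℤ} (hT : 0 ≤ T) {s : List ℤ} (hs : s.Pairwise (· < ·))
    (hv : ∀ v ∈ s, 0 ≤ v ∧ v ≤ T) :
    Good (2 * numA K T + 2 * T + 1) 2 (numA K T) s := by
  have hA := numA_ge (K := K) (T := T)
  refine ⟨hs, ?_, by linarith, by linarith, le_rfl⟩
  intro v hv'
  have := hv v hv'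
  exact ⟨this.1, by linarith⟩

theorem placed_congr {m m' : ℕ} (h : m = m') {C : Set (ℝ × ℝ)} {X : Fin m → Set (ℝ × ℝ)}
    {X' : Fin m' → Set (ℝ × ℝ)} (hX : ∀ i, X' i = X (Fin.cast h.symm i)) {θ : Fin m → ℝ}
    {u : Fin m → ℝ × ℝ} (hp : Placed C X θ u) :
    Placed C X' (fun i => θ (Fin.cast h.symm i)) (fun i => u (Fin.cast h.symm i)) := by
  subst h
  have : X' = X := funext fun i => hX i
  rw [this]
  exact hp

/-- The packing instance is equivalent to the sum problem. -/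
theorem packs_iff {T : ℤ} (hT : 0 ≤ T) {Ls : List (List ℤ)}
    (hLs : ∀ s ∈ Ls, s.Pairwise (· < ·) ∧ ∀ v ∈ s, 0 ≤ v ∧ v ≤ T) {I : Inst}
    (hC : I.C = cont Ls.length T) (hP : I.pieces = Ls.map (piece Ls.length T)) :
    (IsSum Ls T → I.PacksTrans) ∧ (0 < Ls.length → I.Packs → IsSum Ls T) := by
  obtain ⟨C, P, h1, h2⟩ := I
  dsimp only at hC hP
  obtain ⟨A, hA⟩ : ∃ A, A = numA Ls.length T := ⟨_, rfl⟩
  have hA' : 4 * T + (2 * (Ls.length : ℤ) + 1) ^ 2 + 13 ≤ A := by rw [hA]; exact le_rfl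
  have hK : P.length = Ls.length := by rw [hP, List.length_map]
  obtain ⟨S, hS⟩ : ∃ S : Fin Ls.length → List ℤ, S = fun i => Ls[i] := ⟨_, rfl⟩
  have hS0 : ∀ i, ∀ v ∈ S i, 0 ≤ v := fun i v hv => by
    rw [hS] at hv
    exact ((hLs Ls[i] (List.getElem_mem _)).2 v hv).1
  have hST : ∀ i, ∀ v ∈ S i, v ≤ T := fun i v hv => by
    rw [hS] at hv
    exact ((hLs Ls[i] (List.getElem_mem _)).2 v hv).2
  have hX : ∀ i : Fin P.length, region P[i] = Shp (2 * (A : ℝ) + 2 * (T : ℝ) + 1) 2 (A : ℝ)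
      (S (Fin.cast hK i)) := by
    intro i
    have e : P[i] = piece Ls.length T Ls[Fin.cast hK i] := by
      subst hP
      simp
    have hg := hLs Ls[Fin.cast hK i] (List.getElem_mem _)
    rw [e, hS]
    unfold piece
    rw [region_shape (good_piece hT hg.1 hg.2), hA]
    push_cast
    rfl
  have hXf : (fun i : Fin P.length => region P[i]) = fun i =>
      Shp (2 * (A : ℝ) + 2 * (T : ℝ) + 1) 2 (A : ℝ) (S (Fin.cast hK i)) := funext hX
  have hCr : 0 < Ls.length → region C = Shp ((2 * (A : ℝ) + 2 * (T : ℝ) + 1) + 2 * (T : ℝ))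
      (2 * ((Ls.length : ℕ) : ℝ)) (A : ℝ) [T] := by
    intro hpos
    rw [hC]
    unfold cont
    rw [region_shape (good_cont hT), max_eq_left hpos, hA]
    push_cast
    ring_nf
  constructor
  · intro hsum
    obtain ⟨v, hv, hs⟩ := isSum_fin.1 hsum
    rcases Nat.eq_zero_or_pos Ls.length with h0 | hpos
    · have h0' : P.length = 0 := hK.trans h0
      exact ⟨fun _ => 0, fun i => (Fin.cast h0' i).elim0, fun i => (Fin.cast h0' i).elim0⟩
    · have hv' : ∀ i, v i ∈ S i := fun i => by rw [hS]; exact hv i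
      obtain ⟨u, hu⟩ := complete (K := Ls.length) (A := A) (S := S) hT hA' rfl hS0 v hv' hs
      have hu' := placed_congr hK.symm (X' := fun i : Fin P.length =>
        Shp (2 * (A : ℝ) + 2 * (T : ℝ) + 1) 2 (A : ℝ) (S (Fin.cast hK i))) (fun i => rfl) hu
      refine ⟨fun i => u (Fin.cast hK i), ?_⟩
      show Placed (region C) (fun i : Fin P.length => region P[i]) (fun _ => 0)
        (fun i => u (Fin.cast hK i))
      rw [hCr hpos, hXf]
      exact hu'
  · rintro hpos ⟨θ, u, hp⟩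
    change Placed (region C) (fun i : Fin P.length => region P[i]) θ u at hp
    rw [hCr hpos, hXf] at hp
    have hp' := placed_congr hK (X' := fun i => Shp (2 * (A : ℝ) + 2 * (T : ℝ) + 1)
      2 (A : ℝ) (S i)) (fun i => rfl) hp
    obtain ⟨v, hv, hs⟩ := sound (K := Ls.length) hpos (A := A) (S := S) hT hA' rfl hS0 hST _ _ hp'
    refine isSum_fin.2 ⟨v, fun i => ?_, hs⟩
    have := hv i
    rw [hS] at this
    exact this

end Pool.Agent.Lib.MP_858715_lc
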