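import Pool.Agent.Lib.MP_858715_lc.Defs

/-!
# The region bounded by `shape`
-/

namespace Pool.Agent.Lib.MP_858715_lc

/-! ### Paths -/

/-- The edges along a path. -/
def steps {α : Type*} : α → List α → List (α × α)
  | _, [] => []
  | p, q :: l => (p, q) :: steps q l

theorem zip_eq_steps {α : Type*} (l : List α) : ∀ p q : α,
    (p :: l).zip (l ++ [q]) = steps p (l ++ [q]) := by
  induction l with
  | nil => intro p q; rfl
  | cons a l ih =>
    intro p q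
    have := ih a q
    simp only [List.cons_append, List.zip_cons_cons, steps] at this ⊢
    rw [this]

theorem edges_cons (p : ℚ × ℚ) (l : Poly) : edges (p :: l) = steps p (l ++ [p]) := by
  unfold edges
  rw [show (p :: l).rotate 1 = l ++ [p] by simp, zip_eq_steps]

theorem steps_map {α β : Type*} (f : α → β) (l : List α) : ∀ p : α,
    steps (f p) (l.map f) = (steps p l).map fun e => (f e.1, f e.2) := by
  induction l with
  | nil => intro p; rfl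
  | cons a l ih => intro p; simp only [List.map_cons, steps, ih a]

/-- Integer points as points of the plane. -/
def ptZ (p : ℤ × ℤ) : ℝ × ℝ := ((p.1 : ℝ), (p.2 : ℝ))

/-- The segments along a path of integer points. -/
def onPath (p : ℤ × ℤ) (l : List (ℤ × ℤ)) (z : ℝ × ℝ) : Prop :=
  ∃ e ∈ steps p l, z ∈ segment ℝ (ptZ e.1) (ptZ e.2)

theorem onPath_cons (p q : ℤ × ℤ) (l : List (ℤ × ℤ)) (z : ℝ × ℝ) :
    onPath p (q :: l) z ↔ z ∈ segment ℝ (ptZ p) (ptZ q) ∨ onPath q l z := by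
  unfold onPath
  simp only [steps, List.mem_cons, exists_eq_or_imp]

theorem onPath_nil (p : ℤ × ℤ) (z : ℝ × ℝ) : ¬ onPath p [] z := by
  unfold onPath
  simp [steps]

theorem mem_hseg {x x' y : ℝ} (h : x ≤ x') (z : ℝ × ℝ) :
    z ∈ segment ℝ (x, y) (x', y) ↔ z.2 = y ∧ x ≤ z.1 ∧ z.1 ≤ x' := by
  rw [← Prod.image_mk_segment_left, segment_eq_Icc h]
  constructor
  · rintro ⟨t, ht, rfl⟩
    exact ⟨rfl, ht.1, ht.2⟩
  · rintro ⟨h1, h2, h3⟩
    exact ⟨z.1, ⟨h2, h3⟩, Prod.ext rfl h1.symm⟩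

theorem mem_hseg' {x x' y : ℝ} (h : x' ≤ x) (z : ℝ × ℝ) :
    z ∈ segment ℝ (x, y) (x', y) ↔ z.2 = y ∧ x' ≤ z.1 ∧ z.1 ≤ x := by
  rw [segment_symm, mem_hseg h]

theorem mem_vseg {x y y' : ℝ} (h : y ≤ y') (z : ℝ × ℝ) :
    z ∈ segment ℝ (x, y) (x, y') ↔ z.1 = x ∧ y ≤ z.2 ∧ z.2 ≤ y' := by
  rw [← Prod.image_mk_segment_right, segment_eq_Icc h]
  constructor
  · rintro ⟨t, ht, rfl⟩
    exact ⟨rfl, ht.1, ht.2⟩
  · rintro ⟨h1, h2, h3⟩
    exact ⟨z.2, ⟨h2, h3⟩, Prod.ext h1.symm rfl⟩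

theorem mem_vseg' {x y y' : ℝ} (h : y' ≤ y) (z : ℝ × ℝ) :
    z ∈ segment ℝ (x, y) (x, y') ↔ z.1 = x ∧ y' ≤ z.2 ∧ z.2 ≤ y := by
  rw [segment_symm, mem_vseg h]

/-- The edges of `shape`. -/
theorem mem_boundary_shape (L H A : ℤ) (S : List ℤ) (z : ℝ × ℝ) :
    z ∈ boundary (shape L H A S) ↔ onPath (0, 0) (notches A S ++
      [(L, 0), (L, H), (A + 1, H), (A + 1, H + 1), (A, H + 1), (A, H), (0, H), (0, 0)]) z := by
  unfold boundary onPath shape shapeZ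
  rw [List.map_cons, edges_cons]
  have h1 : (List.map (fun p : ℤ × ℤ => ((p.1 : ℚ), (p.2 : ℚ)))
      (notches A S ++ [(L, 0), (L, H), (A + 1, H), (A + 1, H + 1), (A, H + 1), (A, H), (0, H)]) ++
      [(fun p : ℤ × ℤ => ((p.1 : ℚ), (p.2 : ℚ))) (0, 0)]) =
      List.map (fun p : ℤ × ℤ => ((p.1 : ℚ), (p.2 : ℚ))) (notches A S ++
      [(L, 0), (L, H), (A + 1, H), (A + 1, H + 1), (A, H + 1), (A, H), (0, H), (0, 0)]) := by
    simp
  rw [h1, steps_map (fun p : ℤ × ℤ => ((p.1 : ℚ), (p.2 : ℚ)))]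
  simp only [Set.mem_ofPred_eq, List.mem_map]
  constructor
  · rintro ⟨_, ⟨e, he, rfl⟩, hz⟩
    refine ⟨e, he, ?_⟩
    simpa [seg, toPt, ptZ] using hz
  · rintro ⟨e, he, hz⟩
    refine ⟨_, ⟨e, he, rfl⟩, ?_⟩
    simpa [seg, toPt, ptZ] using hz

/-- The points of the lower chain. -/
def Low (L A x : ℤ) (S : List ℤ) (z : ℝ × ℝ) : Prop :=
  (z.2 = 0 ∧ (x : ℝ) ≤ z.1 ∧ z.1 ≤ L ∧
      ∀ v ∈ S, ¬ ((A : ℝ) + 2 * v < z.1 ∧ z.1 < (A : ℝ) + 2 * v + 1)) ∨
    (∃ v ∈ S, (z.1 = (A : ℝ) + 2 * v ∨ z.1 = (A : ℝ) + 2 * v + 1) ∧ 0 ≤ z.2 ∧ z.2 ≤ 1) ∨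
    ∃ v ∈ S, (A : ℝ) + 2 * v ≤ z.1 ∧ z.1 ≤ (A : ℝ) + 2 * v + 1 ∧ z.2 = 1

theorem onPath_notches (L A : ℤ) (R : List (ℤ × ℤ)) (z : ℝ × ℝ) (S : List ℤ) : ∀ x : ℤ,
    S.Pairwise (· < ·) → (∀ v ∈ S, x ≤ A + 2 * v ∧ A + 2 * v + 1 < L) → x ≤ L →
    (onPath (x, 0) (notches A S ++ (L, 0) :: R) z ↔ Low L A x S z ∨ onPath (L, 0) R z) := by
  induction S with
  | nil =>
    intro x _ _ hx
    have hx' : (x : ℝ) ≤ L := by exact_mod_cast hx
    simp only [notches, List.flatMap_nil, List.nil_append]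
    rw [onPath_cons]
    refine or_congr ?_ Iff.rfl
    unfold ptZ Low
    simp only [Int.cast_zero]
    rw [mem_hseg hx']
    constructor
    · rintro ⟨h1, h2, h3⟩
      exact Or.inl ⟨h1, h2, h3, by simp⟩
    · rintro (⟨h1, h2, h3, _⟩ | ⟨v, hv, _⟩ | ⟨v, hv, _⟩)
      · exact ⟨h1, h2, h3⟩
      · simp at hv
      · simp at hv
  | cons v S ih =>
    intro x hS hv hx
    rw [List.pairwise_cons] at hS
    obtain ⟨hxv, hvL⟩ := hv v List.mem_cons_self
    have e1 : notches A (v :: S) ++ (L, 0) :: R = (A + 2 * v, 0) :: (A + 2 * v, 1) ::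
        (A + 2 * v + 1, 1) :: (A + 2 * v + 1, 0) :: (notches A S ++ (L, 0) :: R) := by
      simp [notches]
    have hlt : ∀ v' ∈ S, A + 2 * v + 1 < A + 2 * v' := by
      intro v' hv'
      have := hS.1 v' hv'
      omega
    have e2 := ih (A + 2 * v + 1) hS.2 (fun v' hv' => ⟨(hlt v' hv').le,
      (hv v' (List.mem_cons_of_mem _ hv')).2⟩) hvL.le
    rw [e1, onPath_cons, onPath_cons, onPath_cons, onPath_cons, e2]
    have hx' : (x : ℝ) ≤ (A : ℝ) + 2 * v := by exact_mod_cast hxv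
    have hL' : (A : ℝ) + 2 * v + 1 < L := by exact_mod_cast hvL
    have hlt' : ∀ v' ∈ S, (A : ℝ) + 2 * v + 1 < (A : ℝ) + 2 * v' := by
      intro v' hv'
      exact_mod_cast hlt v' hv'
    unfold ptZ
    simp only [Int.cast_zero, Int.cast_one, Int.cast_add, Int.cast_mul, Int.cast_ofNat]
    rw [mem_hseg hx', mem_vseg (zero_le_one), mem_hseg (by linarith), mem_vseg' (zero_le_one)]
    simp only [← or_assoc]
    refine or_congr ?_ Iff.rfl
    unfold Low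
    simp only [Int.cast_add, Int.cast_one, Int.cast_mul, Int.cast_ofNat, List.mem_cons,
      forall_eq_or_imp, exists_eq_or_imp]
    constructor
    · rintro ((((⟨h1, h2, h3⟩ | ⟨h1, h2, h3⟩) | ⟨h1, h2, h3⟩) | ⟨h1, h2, h3⟩) | h)
      · refine Or.inl ⟨h1, h2, by linarith, fun h => by linarith, fun v' hv' h => ?_⟩
        have := hlt' v' hv'
        linarith
      · exact Or.inr (Or.inl (Or.inl ⟨Or.inl h1, h2, h3⟩))
      · exact Or.inr (Or.inr (Or.inl ⟨h2, h3, h1⟩))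
      · exact Or.inr (Or.inl (Or.inl ⟨Or.inr h1, h2, h3⟩))
      · rcases h with ⟨h1, h2, h3, h4⟩ | h | h
        · exact Or.inl ⟨h1, by linarith, h3, fun h => by linarith, h4⟩
        · exact Or.inr (Or.inl (Or.inr h))
        · exact Or.inr (Or.inr (Or.inr h))
    · rintro (⟨h1, h2, h3, h4, h5⟩ | (⟨h1 | h1, h2, h3⟩ | h) | (⟨h1, h2, h3⟩ | h))
      · by_cases h6 : z.1 ≤ (A : ℝ) + 2 * v
        · exact Or.inl (Or.inl (Or.inl (Or.inl ⟨h1, h2, h6⟩)))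
        · refine Or.inr (Or.inl ⟨h1, ?_, h3, h5⟩)
          by_contra h7
          push Not at h6 h7
          exact h4 ⟨h6, h7⟩
      · exact Or.inl (Or.inl (Or.inl (Or.inr ⟨h1, h2, h3⟩)))
      · exact Or.inl (Or.inr ⟨h1, h2, h3⟩)
      · exact Or.inr (Or.inr (Or.inl h))
      · exact Or.inl (Or.inl (Or.inr ⟨h3, h1, h2⟩))
      · exact Or.inr (Or.inr (Or.inr h))

/-- The points of the other edges. -/
def Upp (L H A : ℤ) (z : ℝ × ℝ) : Prop :=
  (z.1 = L ∧ 0 ≤ z.2 ∧ z.2 ≤ H) ∨ (z.2 = H ∧ (A : ℝ) + 1 ≤ z.1 ∧ z.1 ≤ L) ∨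
    (z.1 = (A : ℝ) + 1 ∧ (H : ℝ) ≤ z.2 ∧ z.2 ≤ (H : ℝ) + 1) ∨
    (z.2 = (H : ℝ) + 1 ∧ (A : ℝ) ≤ z.1 ∧ z.1 ≤ (A : ℝ) + 1) ∨
    (z.1 = (A : ℝ) ∧ (H : ℝ) ≤ z.2 ∧ z.2 ≤ (H : ℝ) + 1) ∨
    (z.2 = H ∧ 0 ≤ z.1 ∧ z.1 ≤ A) ∨ (z.1 = 0 ∧ 0 ≤ z.2 ∧ z.2 ≤ H)

theorem onPath_upper {L H A : ℤ} {S : List ℤ} (g : Good L H A S) (z : ℝ × ℝ) :
    onPath (L, 0) [(L, H), (A + 1, H), (A + 1, H + 1), (A, H + 1), (A, H), (0, H), (0, 0)] z ↔
      Upp L H A z := by
  have hH : (0 : ℝ) ≤ H := by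
    have := g.hH
    exact_mod_cast (by omega : (0 : ℤ) ≤ H)
  have hA : (0 : ℝ) ≤ A := by exact_mod_cast g.hA.le
  have hL : (A : ℝ) + 1 ≤ L := by exact_mod_cast g.hL.le
  rw [onPath_cons, onPath_cons, onPath_cons, onPath_cons, onPath_cons, onPath_cons, onPath_cons]
  unfold ptZ
  simp only [Int.cast_zero, Int.cast_one, Int.cast_add]
  rw [mem_vseg hH, mem_hseg' hL, mem_vseg (by linarith), mem_hseg' (by linarith),
    mem_vseg' (by linarith), mem_hseg' hA, mem_vseg' hH]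
  unfold Upp
  simp only [onPath_nil, or_false]

theorem mem_boundary_iff {L H A : ℤ} {S : List ℤ} (g : Good L H A S) (z : ℝ × ℝ) :
    z ∈ boundary (shape L H A S) ↔ Low L A 0 S z ∨ Upp L H A z := by
  rw [mem_boundary_shape, onPath_notches L A _ z S 0 g.hS, onPath_upper g]
  · intro v hv
    have := g.hv v hv
    have := g.hA
    omega
  · have := g.hA
    have := g.hL
    omega

/-- The open set of the inner points. -/
def Inn (L H A : ℝ) (S : List ℤ) : Set (ℝ × ℝ) :=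
  {z | 0 < z.1 ∧ z.1 < L ∧ 0 < z.2 ∧ z.2 < H ∧
      ∀ v ∈ S, ¬ (A + 2 * (v : ℝ) ≤ z.1 ∧ z.1 ≤ A + 2 * (v : ℝ) + 1 ∧ z.2 ≤ 1)} ∪
    {z | A < z.1 ∧ z.1 < A + 1 ∧ 1 < z.2 ∧ z.2 < H + 1}

theorem isOpen_Inn (L H A : ℝ) (S : List ℤ) : IsOpen (Inn L H A S) := by
  unfold Inn
  refine IsOpen.union ?_ ?_
  · have e : {z : ℝ × ℝ | 0 < z.1 ∧ z.1 < L ∧ 0 < z.2 ∧ z.2 < H ∧
        ∀ v ∈ S, ¬ (A + 2 * (v : ℝ) ≤ z.1 ∧ z.1 ≤ A + 2 * (v : ℝ) + 1 ∧ z.2 ≤ 1)} =
        {z | 0 < z.1} ∩ ({z | z.1 < L} ∩ ({z | 0 < z.2} ∩ ({z | z.2 < H} ∩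
          ⋂ v ∈ S.toFinset, {z | A + 2 * (v : ℝ) ≤ z.1 ∧ z.1 ≤ A + 2 * (v : ℝ) + 1 ∧
            z.2 ≤ 1}ᶜ))) := by
      ext z
      simp
    rw [e]
    refine (isOpen_lt continuous_const continuous_fst).inter
      ((isOpen_lt continuous_fst continuous_const).inter
      ((isOpen_lt continuous_const continuous_snd).inter
      ((isOpen_lt continuous_snd continuous_const).inter ?_)))
    refine isOpen_biInter_finset fun v _ => ?_
    rw [isOpen_compl_iff]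
    exact (isClosed_le continuous_const continuous_fst).inter
      ((isClosed_le continuous_fst continuous_const).inter
        (isClosed_le continuous_snd continuous_const))
  · exact (isOpen_lt continuous_const continuous_fst).inter
      ((isOpen_lt continuous_fst continuous_const).inter
      ((isOpen_lt continuous_const continuous_snd).inter
        (isOpen_lt continuous_snd continuous_const)))

theorem isClosed_Shp (L H A : ℝ) (S : List ℤ) : IsClosed (Shp L H A S) := by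
  unfold Shp
  refine IsClosed.union ?_ ?_
  · have e : {z : ℝ × ℝ | 0 ≤ z.1 ∧ z.1 ≤ L ∧ 0 ≤ z.2 ∧ z.2 ≤ H ∧
        ∀ v ∈ S, ¬ (A + 2 * (v : ℝ) < z.1 ∧ z.1 < A + 2 * (v : ℝ) + 1 ∧ z.2 < 1)} =
        {z | 0 ≤ z.1} ∩ ({z | z.1 ≤ L} ∩ ({z | 0 ≤ z.2} ∩ ({z | z.2 ≤ H} ∩
          ⋂ v ∈ S, {z | A + 2 * (v : ℝ) < z.1 ∧ z.1 < A + 2 * (v : ℝ) + 1 ∧
            z.2 < 1}ᶜ))) := by
      ext z
      simp
    rw [e]
    refine (isClosed_le continuous_const continuous_fst).inter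
      ((isClosed_le continuous_fst continuous_const).inter
      ((isClosed_le continuous_const continuous_snd).inter
      ((isClosed_le continuous_snd continuous_const).inter ?_)))
    refine isClosed_biInter fun v _ => ?_
    rw [isClosed_compl_iff]
    exact (isOpen_lt continuous_const continuous_fst).inter
      ((isOpen_lt continuous_fst continuous_const).inter
        (isOpen_lt continuous_snd continuous_const))
  · exact (isClosed_le continuous_const continuous_fst).inter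
      ((isClosed_le continuous_fst continuous_const).inter
      ((isClosed_le continuous_const continuous_snd).inter
        (isClosed_le continuous_snd continuous_const)))

theorem Inn_subset_Shp {L H A : ℤ} {S : List ℤ} (g : Good L H A S) :
    Inn L H A S ⊆ Shp L H A S := by
  have hA : (0 : ℝ) < A := by exact_mod_cast g.hA
  have hL : (A : ℝ) + 1 < L := by exact_mod_cast g.hL
  rintro z (⟨h1, h2, h3, h4, h5⟩ | ⟨h1, h2, h3, h4⟩)
  · exact Or.inl ⟨h1.le, h2.le, h3.le, h4.le,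
      fun v hv h => h5 v hv ⟨h.1.le, h.2.1.le, h.2.2.le⟩⟩
  · by_cases h : z.2 ≤ H
    · exact Or.inl ⟨by linarith, by linarith, by linarith, h, fun v hv h' => by linarith [h'.2.2]⟩
    · push Not at h
      exact Or.inr ⟨h1.le, h2.le, h.le, h4.le⟩

theorem boundary_subset_Shp {L H A : ℤ} {S : List ℤ} (g : Good L H A S) :
    boundary (shape L H A S) ⊆ Shp L H A S := by
  have hA : (0 : ℝ) < A := by exact_mod_cast g.hA
  have hL : (A : ℝ) + 1 < L := by exact_mod_cast g.hL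
  have hH : (2 : ℝ) ≤ H := by exact_mod_cast g.hH
  have hv : ∀ v ∈ S, (0 : ℝ) ≤ v ∧ (A : ℝ) + 2 * v + 1 < L := by
    intro v hv
    obtain ⟨h1, h2⟩ := g.hv v hv
    exact ⟨by exact_mod_cast h1, by exact_mod_cast h2⟩
  have hint : ∀ v v' : ℤ, ¬ ((A : ℝ) + 2 * (v' : ℝ) < (A : ℝ) + 2 * v ∧
      (A : ℝ) + 2 * v < (A : ℝ) + 2 * (v' : ℝ) + 1) := by
    rintro v v' ⟨h1, h2⟩
    have h1' : A + 2 * v' < A + 2 * v := by exact_mod_cast h1
    have h2' : A + 2 * v < A + 2 * v' + 1 := by exact_mod_cast h2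
    omega
  have hint' : ∀ v v' : ℤ, ¬ ((A : ℝ) + 2 * (v' : ℝ) < (A : ℝ) + 2 * v + 1 ∧
      (A : ℝ) + 2 * v + 1 < (A : ℝ) + 2 * (v' : ℝ) + 1) := by
    rintro v v' ⟨h1, h2⟩
    have h1' : A + 2 * v' < A + 2 * v + 1 := by exact_mod_cast h1
    have h2' : A + 2 * v + 1 < A + 2 * v' + 1 := by exact_mod_cast h2
    omega
  intro z hz
  rw [mem_boundary_iff g] at hz
  have hz0 : ((0 : ℤ) : ℝ) = 0 := Int.cast_zero
  rcases hz with (⟨h1, h2, h3, h4⟩ | ⟨v, hvS, h1, h2, h3⟩ | ⟨v, hvS, h1, h2, h3⟩) |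
    (⟨h1, h2, h3⟩ | ⟨h1, h2, h3⟩ | ⟨h1, h2, h3⟩ | ⟨h1, h2, h3⟩ | ⟨h1, h2, h3⟩ | ⟨h1, h2, h3⟩ |
      ⟨h1, h2, h3⟩)
  · rw [hz0] at h2
    exact Or.inl ⟨h2, h3, h1.ge, by linarith, fun v hvS h => h4 v hvS ⟨h.1, h.2.1⟩⟩
  · obtain ⟨h4, h5⟩ := hv v hvS
    rcases h1 with h1 | h1
    · exact Or.inl ⟨by linarith, by linarith, h2, by linarith,
        fun v' hv' h => hint v v' ⟨by linarith [h.1], by linarith [h.2.1]⟩⟩
    · exact Or.inl ⟨by linarith, by linarith, h2, by linarith,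
        fun v' hv' h => hint' v v' ⟨by linarith [h.1], by linarith [h.2.1]⟩⟩
  · obtain ⟨h4, h5⟩ := hv v hvS
    exact Or.inl ⟨by linarith, by linarith, by linarith, by linarith,
      fun v' hv' h => by linarith [h.2.2]⟩
  · exact Or.inl ⟨by linarith, by linarith, h2, h3,
      fun v' hv' h => by linarith [h.2.1, (hv v' hv').2]⟩
  · exact Or.inl ⟨by linarith, h3, by linarith, by linarith,
      fun v' hv' h => by linarith [h.2.2]⟩
  · exact Or.inr ⟨by linarith, by linarith, h2, h3⟩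
  · exact Or.inr ⟨h2, h3, by linarith, by linarith⟩
  · exact Or.inr ⟨by linarith, by linarith, h2, h3⟩
  · exact Or.inl ⟨h2, by linarith, by linarith, by linarith,
      fun v' hv' h => by linarith [h.2.2]⟩
  · exact Or.inl ⟨by linarith, by linarith, h2, h3,
      fun v' hv' h => by linarith [h.1, (hv v' hv').1]⟩

theorem mem_Inn_or {L H A : ℤ} {S : List ℤ} (g : Good L H A S) {z : ℝ × ℝ}
    (hz : z ∈ Shp (L : ℝ) H A S) : z ∈ Inn (L : ℝ) H A S ∨ z ∈ boundary (shape L H A S) := by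
  have hA : (0 : ℝ) < A := by exact_mod_cast g.hA
  have hL : (A : ℝ) + 1 < L := by exact_mod_cast g.hL
  have hH : (2 : ℝ) ≤ H := by exact_mod_cast g.hH
  have hz0 : ((0 : ℤ) : ℝ) = 0 := Int.cast_zero
  rw [mem_boundary_iff g]
  rcases hz with ⟨h1, h2, h3, h4, h5⟩ | ⟨h1, h2, h3, h4⟩
  · rcases h1.eq_or_lt with h1 | h1
    · exact Or.inr (Or.inr (Or.inr (Or.inr (Or.inr (Or.inr (Or.inr (Or.inr
        ⟨h1.symm, h3, h4⟩)))))))
    rcases h2.eq_or_lt with h2 | h2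
    · exact Or.inr (Or.inr (Or.inl ⟨h2, h3, h4⟩))
    rcases h3.eq_or_lt with h3 | h3
    · exact Or.inr (Or.inl (Or.inl ⟨h3.symm, by rw [hz0]; exact h1.le, h2.le,
        fun v hv h => h5 v hv ⟨h.1, h.2, by linarith⟩⟩))
    rcases h4.eq_or_lt with h4 | h4
    · by_cases h6 : z.1 ≤ A
      · exact Or.inr (Or.inr (Or.inr (Or.inr (Or.inr (Or.inr (Or.inr (Or.inl
          ⟨h4, h1.le, h6⟩)))))))
      · by_cases h7 : (A : ℝ) + 1 ≤ z.1
        · exact Or.inr (Or.inr (Or.inr (Or.inl ⟨h4, h7, h2.le⟩)))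
        · push Not at h6 h7
          exact Or.inl (Or.inr ⟨h6, h7, by linarith, by linarith⟩)
    · by_cases h6 : ∃ v ∈ S, (A : ℝ) + 2 * (v : ℝ) ≤ z.1 ∧ z.1 ≤ (A : ℝ) + 2 * (v : ℝ) + 1 ∧
          z.2 ≤ 1
      · obtain ⟨v, hv, h7, h8, h9⟩ := h6
        right
        left
        rcases h9.eq_or_lt with h9 | h9
        · exact Or.inr (Or.inr ⟨v, hv, h7, h8, h9⟩)
        · rcases h7.eq_or_lt with h7 | h7
          · exact Or.inr (Or.inl ⟨v, hv, Or.inl h7.symm, h3.le, h9.le⟩)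
          · rcases h8.eq_or_lt with h8 | h8
            · exact Or.inr (Or.inl ⟨v, hv, Or.inr h8, h3.le, h9.le⟩)
            · exact absurd ⟨h7, h8, h9⟩ (h5 v hv)
      · push Not at h6
        exact Or.inl (Or.inl ⟨h1, h2, h3, h4, fun v hv h => by
          have := h6 v hv h.1 h.2.1
          linarith [h.2.2]⟩)
  · rcases h1.eq_or_lt with h1 | h1
    · exact Or.inr (Or.inr (Or.inr (Or.inr (Or.inr (Or.inr (Or.inl ⟨h1.symm, h3, h4⟩))))))
    rcases h2.eq_or_lt with h2 | h2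
    · exact Or.inr (Or.inr (Or.inr (Or.inr (Or.inl ⟨h2, h3, h4⟩))))
    rcases h4.eq_or_lt with h4 | h4
    · exact Or.inr (Or.inr (Or.inr (Or.inr (Or.inr (Or.inl ⟨h4, h1.le, h2.le⟩)))))
    · exact Or.inl (Or.inr ⟨h1, h2, by linarith, h4⟩)

/-- A point outside `Shp` lies on a connected unbounded set outside `Shp`. -/
theorem exists_ray {L H A : ℤ} {S : List ℤ} (g : Good L H A S) {z : ℝ × ℝ}
    (hz : z ∉ Shp (L : ℝ) H A S) : ∃ r : Set (ℝ × ℝ), IsPreconnected r ∧ z ∈ r ∧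
      ¬ Bornology.IsBounded r ∧ r ⊆ (Shp (L : ℝ) H A S)ᶜ := by
  have hA : (0 : ℝ) < A := by exact_mod_cast g.hA
  have hL : (A : ℝ) + 1 < L := by exact_mod_cast g.hL
  have hH : (2 : ℝ) ≤ H := by exact_mod_cast g.hH
  have hIic : ∀ a : ℝ, ¬ Bornology.IsBounded (Set.Iic a) := fun a h => not_bddBelow_Iic a h.bddBelow
  have hIci : ∀ a : ℝ, ¬ Bornology.IsBounded (Set.Ici a) := fun a h => not_bddAbove_Ici a h.bddAbove
  by_cases h1 : z.1 < 0
  · refine ⟨Set.Iic z.1 ×ˢ {z.2}, isPreconnected_Iic.prod isPreconnected_singleton,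
      ⟨Set.self_mem_Iic, rfl⟩, fun hb => hIic _ (hb.fst_of_prod (Set.singleton_nonempty _)), ?_⟩
    rintro w ⟨hw1, hw2⟩ (⟨h2, _⟩ | ⟨h2, _⟩)
    · have : w.1 ≤ z.1 := hw1
      linarith
    · have : w.1 ≤ z.1 := hw1
      linarith
  by_cases h2 : (L : ℝ) < z.1
  · refine ⟨Set.Ici z.1 ×ˢ {z.2}, isPreconnected_Ici.prod isPreconnected_singleton,
      ⟨Set.self_mem_Ici, rfl⟩, fun hb => hIci _ (hb.fst_of_prod (Set.singleton_nonempty _)), ?_⟩
    rintro w ⟨hw1, hw2⟩ (⟨_, h3, _⟩ | ⟨_, h3, _⟩)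
    · have : z.1 ≤ w.1 := hw1
      linarith
    · have : z.1 ≤ w.1 := hw1
      linarith
  push Not at h1 h2
  by_cases h3 : z.2 ≤ H
  · have h4 : z.2 < 0 ∨ ∃ v ∈ S, (A : ℝ) + 2 * (v : ℝ) < z.1 ∧ z.1 < (A : ℝ) + 2 * (v : ℝ) + 1 ∧
        z.2 < 1 := by
      by_contra h5
      push Not at h5
      exact hz (Or.inl ⟨h1, h2, h5.1, h3, fun v hv h => by
        have := h5.2 v hv h.1 h.2.1
        linarith [h.2.2]⟩)
    refine ⟨{z.1} ×ˢ Set.Iic z.2, isPreconnected_singleton.prod isPreconnected_Iic,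
      ⟨rfl, Set.self_mem_Iic⟩, fun hb => hIic _ (hb.snd_of_prod (Set.singleton_nonempty _)), ?_⟩
    rintro w ⟨hw1, hw2⟩ hw
    have e1 : w.1 = z.1 := hw1
    have e2 : w.2 ≤ z.2 := hw2
    rcases h4 with h4 | ⟨v, hv, h4, h5, h6⟩
    · rcases hw with ⟨_, _, h7, _⟩ | ⟨_, _, h7, _⟩
      · linarith
      · linarith
    · rcases hw with ⟨_, _, _, _, h7⟩ | ⟨_, _, h7, _⟩
      · exact h7 v hv ⟨by rw [e1]; exact h4, by rw [e1]; exact h5, by linarith⟩
      · linarith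
  · push Not at h3
    refine ⟨{z.1} ×ˢ Set.Ici z.2, isPreconnected_singleton.prod isPreconnected_Ici,
      ⟨rfl, Set.self_mem_Ici⟩, fun hb => hIci _ (hb.snd_of_prod (Set.singleton_nonempty _)), ?_⟩
    rintro w ⟨hw1, hw2⟩ hw
    have e1 : w.1 = z.1 := hw1
    have e2 : z.2 ≤ w.2 := hw2
    rcases hw with ⟨_, _, _, h7, _⟩ | ⟨h4, h5, h6, h7⟩
    · linarith
    · exact hz (Or.inr ⟨by rw [← e1]; exact h4, by rw [← e1]; exact h5, h3.le, by linarith⟩)

theorem isBounded_Shp {L H A : ℤ} {S : List ℤ} (g : Good L H A S) :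
    Bornology.IsBounded (Shp (L : ℝ) H A S) := by
  have hA : (0 : ℝ) < A := by exact_mod_cast g.hA
  have hL : (A : ℝ) + 1 < L := by exact_mod_cast g.hL
  have hH : (2 : ℝ) ≤ H := by exact_mod_cast g.hH
  refine Bornology.IsBounded.subset ((Metric.isBounded_Icc (0 : ℝ) L).prod
    (Metric.isBounded_Icc (0 : ℝ) (H + 1))) ?_
  rintro z (⟨h1, h2, h3, h4, _⟩ | ⟨h1, h2, h3, h4⟩)
  · exact ⟨⟨h1, h2⟩, ⟨h3, by linarith⟩⟩
  · exact ⟨⟨by linarith, by linarith⟩, ⟨by linarith, h4⟩⟩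

/-- The region bounded by `shape`. -/
theorem region_shape {L H A : ℤ} {S : List ℤ} (g : Good L H A S) :
    region (shape L H A S) = Shp (L : ℝ) H A S := by
  ext z
  constructor
  · rintro (hz | ⟨hz, hb⟩)
    · exact boundary_subset_Shp g hz
    · by_contra hz'
      obtain ⟨r, hr1, hr2, hr3, hr4⟩ := exists_ray g hz'
      refine hr3 (hb.subset ?_)
      refine hr1.subset_connectedComponentIn hr2 ?_
      exact hr4.trans (Set.compl_subset_compl.mpr (boundary_subset_Shp g))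
  · intro hz
    by_cases hzb : z ∈ boundary (shape L H A S)
    · exact Or.inl hzb
    · refine Or.inr ⟨hzb, ?_⟩
      have hzI : z ∈ Inn (L : ℝ) H A S := (mem_Inn_or g hz).resolve_right hzb
      refine (isBounded_Shp g).subset ?_
      refine Set.Subset.trans ?_ (Inn_subset_Shp g)
      have hpre : IsPreconnected (connectedComponentIn (boundary (shape L H A S))ᶜ z) :=
        isPreconnected_connectedComponentIn
      refine hpre.subset_left_of_subset_union (isOpen_Inn _ _ _ _)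
        (isClosed_Shp (L : ℝ) H A S).isOpen_compl ?_ ?_ ⟨z, mem_connectedComponentIn hzb, hzI⟩
      · rw [Set.disjoint_compl_right_iff_subset]
        exact Inn_subset_Shp g
      · intro w hw
        have hw' := connectedComponentIn_subset _ _ hw
        by_cases h : w ∈ Shp (L : ℝ) H A S
        · exact Or.inl ((mem_Inn_or g h).resolve_right hw')
        · exact Or.inr h

end Pool.Agent.Lib.MP_858715_lc
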