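import Pool.Agent.Lib.MP_858715_lc.Tilt

/-!
# A placement of the bars gives a solution of the sum problem
-/

namespace Pool.Agent.Lib.MP_858715_lc

theorem cover {A : ℤ} {S : List ℤ} {t : ℝ}
    (h : ∀ a, t < a → a < t + 1 → ∃ v ∈ S, (A : ℝ) + 2 * (v : ℝ) ≤ a ∧
      a ≤ (A : ℝ) + 2 * (v : ℝ) + 1) : ∃ v ∈ S, t = (A : ℝ) + 2 * (v : ℝ) := by
  obtain ⟨v, hv, h1, h2⟩ := h (t + 1 / 2) (by linarith) (by linarith)
  refine ⟨v, hv, ?_⟩
  rcases lt_trichotomy t ((A : ℝ) + 2 * (v : ℝ)) with hlt | heq | hgt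
  · exfalso
    set m : ℝ := max t ((A : ℝ) + 2 * (v : ℝ) - 1) with hm
    have hm1 : t ≤ m := le_max_left _ _
    have hm2 : (A : ℝ) + 2 * (v : ℝ) - 1 ≤ m := le_max_right _ _
    have hm3 : m < (A : ℝ) + 2 * (v : ℝ) := max_lt hlt (by linarith)
    obtain ⟨v', hv', h3, h4⟩ := h ((m + ((A : ℝ) + 2 * (v : ℝ))) / 2) (by linarith) (by linarith)
    have h5 : (v' : ℝ) < v := by linarith
    have h6 : v' < v := by exact_mod_cast h5
    have h7 : (v' : ℝ) ≤ v - 1 := by exact_mod_cast (by omega : v' ≤ v - 1)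
    linarith
  · exact heq
  · exfalso
    set m : ℝ := min (t + 1) ((A : ℝ) + 2 * (v : ℝ) + 2) with hm
    have hm1 : m ≤ t + 1 := min_le_left _ _
    have hm2 : m ≤ (A : ℝ) + 2 * (v : ℝ) + 2 := min_le_right _ _
    have hm3 : (A : ℝ) + 2 * (v : ℝ) + 1 < m := lt_min (by linarith) (by linarith)
    obtain ⟨v', hv', h3, h4⟩ := h ((m + ((A : ℝ) + 2 * (v : ℝ) + 1)) / 2) (by linarith)
      (by linarith)
    have h5 : (v' : ℝ) < v + 1 := by linarith
    have h6 : v' < v + 1 := by exact_mod_cast h5
    have h7 : (v' : ℝ) ≤ v := by exact_mod_cast (by omega : v' ≤ v)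
    linarith

theorem sound {K : ℕ} (hK : 0 < K) {A T : ℤ} {S : Fin K → List ℤ} {L : ℝ} (hT : 0 ≤ T)
    (hA : 4 * T + (2 * K + 1) ^ 2 + 13 ≤ A) (hL : L = 2 * A + 2 * T + 1)
    (hS0 : ∀ i, ∀ v ∈ S i, 0 ≤ v) (hST : ∀ i, ∀ v ∈ S i, v ≤ T) (θ : Fin K → ℝ)
    (u : Fin K → ℝ × ℝ)
    (h : Placed (Shp (L + 2 * T) (2 * K) A [T]) (fun i => Shp L 2 A (S i)) θ u) :
    ∃ v : Fin K → ℤ, (∀ i, v i ∈ S i) ∧ ∑ i, v i = T := by
  have hT' : (0 : ℝ) ≤ T := by exact_mod_cast hT
  have hA' : 4 * (T : ℝ) + (2 * K + 1) ^ 2 + 13 ≤ A := by exact_mod_cast hA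
  have hK' : (1 : ℝ) ≤ K := by exact_mod_cast hK
  have hA0 : 4 * (T : ℝ) + 13 ≤ A := by nlinarith [sq_nonneg (2 * (K : ℝ) + 1)]
  obtain ⟨r, x, f, hx, hm⟩ := rows hT' hA' hL hS0
    (fun i v hv => by exact_mod_cast hST i v hv) θ u h
  have hAL : (A : ℝ) + 1 ≤ L := by linarith
  have hin : ∀ i z, z ∈ Shp L 2 A (S i) →
      (if f i then (x i + L - z.1, 2 * (r i : ℕ) + 2 - z.2)
        else (x i + z.1, 2 * (r i : ℕ) + z.2) : ℝ × ℝ) ∈ Shp (L + 2 * T) (2 * K) A [T] := by
    intro i z hz
    have := h.1 i (Set.mem_image_of_mem _ hz)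
    rwa [hm i z] at this
  have hint : ∀ i j, i ≠ j → ∀ z w, z ∈ Inn L 2 A (S i) → w ∈ Inn L 2 A (S j) →
      (if f i then (x i + L - z.1, 2 * (r i : ℕ) + 2 - z.2)
        else (x i + z.1, 2 * (r i : ℕ) + z.2) : ℝ × ℝ) =
      (if f j then (x j + L - w.1, 2 * (r j : ℕ) + 2 - w.2)
        else (x j + w.1, 2 * (r j : ℕ) + w.2) : ℝ × ℝ) → False := by
    intro i j hij z w hz hw heq
    have h1 := image_mem_interior (θ := θ i) (u := u i) (isOpen_Inn L 2 A (S i))
      (Inn_subset_Shp' (by linarith) hAL (by norm_num)) hz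
    have h2 := image_mem_interior (θ := θ j) (u := u j) (isOpen_Inn L 2 A (S j))
      (Inn_subset_Shp' (by linarith) hAL (by norm_num)) hw
    rw [hm i z, heq] at h1
    rw [hm j w] at h2
    exact Set.disjoint_left.mp (h.2 i j hij) h1 h2
  -- no bar is upside down
  have hflip : ∀ n : ℕ, ∀ i, (r i : ℕ) = n → f i = false := by
    intro n
    induction n with
    | zero =>
      intro i hi
      by_contra hf
      have hf' : f i = true := by simpa using hf
      have h1 := hin i (A, 3) (Or.inr ⟨le_rfl, by simp, by norm_num, by norm_num⟩)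
      rw [hf', hi] at h1
      simp only [if_true] at h1
      have h2 := Shp_box (by linarith) (by linarith) (by positivity) h1
      have h3 := h2.2.2.1
      norm_num at h3
    | succ n ih =>
      intro i hi
      by_contra hf
      have hf' : f i = true := by simpa using hf
      have hn : n < K := by
        have := (r i).2
        omega
      set j := r.symm ⟨n, hn⟩ with hj
      have hrj : (r j : ℕ) = n := by rw [hj, Equiv.apply_symm_apply]
      have hfj := ih j hrj
      have hij : i ≠ j := by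
        rintro hij
        rw [hij, hrj] at hi
        omega
      have hxi := hx i
      have hxj := hx j
      refine hint i j hij (A + 1 / 2, 5 / 2) (x i - x j + L - A - 1 / 2, 3 / 2)
        (Or.inr ⟨?_, ?_, ?_, ?_⟩) (Or.inl ⟨?_, ?_, ?_, ?_, ?_⟩) ?_
      · simp
      · simp only
        linarith
      · norm_num
      · norm_num
      · simp only
        linarith [hxi.1, hxj.2]
      · simp only
        linarith [hxi.2, hxj.1]
      · norm_num
      · norm_num
      · rintro v _ ⟨_, _, h3⟩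
        norm_num at h3
      · rw [hf', hfj, hi, hrj]
        simp only [if_true, Bool.false_eq_true, if_false]
        refine Prod.ext ?_ ?_
        · simp only
          ring
        · simp only
          push_cast
          ring
  have hf : ∀ i, f i = false := fun i => hflip _ i rfl
  simp only [hf, Bool.false_eq_true, if_false] at hin hint
  -- the bottom row
  have hbot : ∀ i, (r i : ℕ) = 0 → ∃ v ∈ S i, x i = 2 * T - 2 * (v : ℝ) := by
    intro i hi
    have hxi := hx i
    obtain ⟨v, hv, h1⟩ := cover (A := A) (S := S i) (t := A + 2 * T - x i) (by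
      intro a ha1 ha2
      by_contra hcon
      push Not at hcon
      have h1 := hin i (a, 1 / 2) (Or.inl ⟨by simp only; linarith, by simp only; linarith,
        by norm_num, by norm_num, fun v hv hh => by
          have := hcon v hv hh.1.le
          linarith [hh.2.1]⟩)
      rw [hi] at h1
      rcases h1 with ⟨_, _, _, _, h2⟩ | ⟨_, _, h2, _⟩
      · exact h2 T (List.mem_singleton.mpr rfl) ⟨by simp only; linarith, by simp only; linarith,
          by norm_num⟩
      · simp only at h2
        norm_num at h2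
        linarith)
    exact ⟨v, hv, by linarith⟩
  -- two consecutive rows
  have hstep : ∀ i j, (r i : ℕ) = (r j : ℕ) + 1 → ∃ v ∈ S i, x i = x j - 2 * (v : ℝ) := by
    intro i j hij
    have hxi := hx i
    have hxj := hx j
    have hne : i ≠ j := by
      rintro rfl
      omega
    obtain ⟨v, hv, h1⟩ := cover (A := A) (S := S i) (t := x j + A - x i) (by
      intro a ha1 ha2
      by_contra hcon
      push Not at hcon
      refine hint i j hne (a, 1 / 2) (x i + a - x j, 5 / 2) (Or.inl ⟨?_, ?_, ?_, ?_, ?_⟩)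
        (Or.inr ⟨?_, ?_, ?_, ?_⟩) ?_
      · simp only
        linarith [hxi.2, hxj.1]
      · simp only
        linarith [hxi.1, hxj.2]
      · norm_num
      · norm_num
      · rintro v hv ⟨h2, h3, _⟩
        have := hcon v hv h2
        linarith
      · simp only
        linarith
      · simp only
        linarith
      · norm_num
      · norm_num
      · rw [hij]
        refine Prod.ext ?_ ?_
        · simp only
          ring
        · simp only
          push_cast
          ring)
    exact ⟨v, hv, by linarith⟩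
  -- the top row
  have htop : ∀ i, (r i : ℕ) + 1 = K → x i = 0 := by
    intro i hi
    have h1 := hin i (A + 1, 3) (Or.inr ⟨by simp, le_rfl, by norm_num, by norm_num⟩)
    have hiK : ((r i : ℕ) : ℝ) + 1 = K := by exact_mod_cast hi
    have hxi := hx i
    rcases h1 with ⟨_, _, _, h2, _⟩ | ⟨_, h2, _, _⟩
    · exfalso
      simp only at h2
      linarith
    · simp only at h2
      linarith [hxi.1]
  -- choice of the summands
  have hex : ∀ i, ∃ v ∈ S i, ((r i : ℕ) = 0 → x i = 2 * T - 2 * (v : ℝ)) ∧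
      ∀ j, (r i : ℕ) = (r j : ℕ) + 1 → x i = x j - 2 * (v : ℝ) := by
    intro i
    by_cases h0 : (r i : ℕ) = 0
    · obtain ⟨v, hv, h1⟩ := hbot i h0
      exact ⟨v, hv, fun _ => h1, fun j hj => by omega⟩
    · have hlt : (r i : ℕ) - 1 < K := by
        have := (r i).2
        omega
      set j := r.symm ⟨(r i : ℕ) - 1, hlt⟩ with hj
      have hrj : (r j : ℕ) = (r i : ℕ) - 1 := by rw [hj, Equiv.apply_symm_apply]
      obtain ⟨v, hv, h1⟩ := hstep i j (by omega)
      refine ⟨v, hv, fun h => absurd h h0, fun j' hj' => ?_⟩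
      have : j' = j := by
        apply r.injective
        apply Fin.ext
        omega
      rw [this]
      exact h1
  choose v hvS hv0 hvs using hex
  refine ⟨v, hvS, ?_⟩
  have hsum : ∀ n : ℕ, ∀ hn : n < K, x (r.symm ⟨n, hn⟩) =
      2 * T - 2 * ∑ m ∈ Finset.range (n + 1),
        (if hm : m < K then (v (r.symm ⟨m, hm⟩) : ℝ) else 0) := by
    intro n
    induction n with
    | zero =>
      intro hn
      have h1 := hv0 (r.symm ⟨0, hn⟩) (by rw [Equiv.apply_symm_apply])
      rw [h1]
      simp [hn]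
    | succ n ih =>
      intro hn
      have h1 := hvs (r.symm ⟨n + 1, hn⟩) (r.symm ⟨n, by omega⟩)
        (by rw [Equiv.apply_symm_apply, Equiv.apply_symm_apply])
      rw [h1, ih (by omega), Finset.sum_range_succ _ (n + 1), dif_pos hn]
      ring
  have h1 := hsum (K - 1) (by omega)
  rw [htop _ (by rw [Equiv.apply_symm_apply]; show K - 1 + 1 = K; omega)] at h1
  rw [show K - 1 + 1 = K by omega] at h1
  have h2 : ∑ m ∈ Finset.range K, (if hm : m < K then (v (r.symm ⟨m, hm⟩) : ℝ) else 0) =
      ∑ i, (v i : ℝ) := by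
    rw [← Equiv.sum_comp r.symm (fun i => (v i : ℝ)), Finset.sum_range]
    refine Finset.sum_congr rfl fun m _ => ?_
    rw [dif_pos m.2]
  rw [h2] at h1
  have h3 : ((∑ i, v i : ℤ) : ℝ) = (T : ℝ) := by
    push_cast
    linarith
  exact_mod_cast h3

end Pool.Agent.Lib.MP_858715_lc
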