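import Pool.Agent.Lib.MP_858715_lc.Region

/-!
# Bars in a rectangle of the same total height are not tilted
-/

namespace Pool.Agent.Lib.MP_858715_lc

/-! ### Rigid motions -/

/-- The rigid motion as a homeomorphism. -/
noncomputable def moveH (θ : ℝ) (u : ℝ × ℝ) : (ℝ × ℝ) ≃ₜ (ℝ × ℝ) where
  toFun := move θ u
  invFun z := (Real.cos θ * (z.1 - u.1) + Real.sin θ * (z.2 - u.2),
    -Real.sin θ * (z.1 - u.1) + Real.cos θ * (z.2 - u.2))
  left_inv z := by
    have h := Real.sin_sq_add_cos_sq θ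
    unfold move
    refine Prod.ext ?_ ?_
    · simp only
      linear_combination z.1 * h
    · simp only
      linear_combination z.2 * h
  right_inv z := by
    have h := Real.sin_sq_add_cos_sq θ
    unfold move
    refine Prod.ext ?_ ?_
    · simp only
      linear_combination (z.1 - u.1) * h
    · simp only
      linear_combination (z.2 - u.2) * h
  continuous_toFun := by
    unfold move
    fun_prop
  continuous_invFun := by fun_prop

theorem image_mem_interior {θ : ℝ} {u : ℝ × ℝ} {X U : Set (ℝ × ℝ)} (hU : IsOpen U) (hUX : U ⊆ X)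
    {z : ℝ × ℝ} (hz : z ∈ U) : move θ u z ∈ interior (move θ u '' X) := by
  rw [mem_interior]
  refine ⟨move θ u '' U, Set.image_mono hUX, ?_, Set.mem_image_of_mem _ hz⟩
  exact (moveH θ u).isOpenMap U hU

/-! ### Plain parts of the bars -/

theorem mem_Shp_left {L H A : ℝ} {S : List ℤ} (hv : ∀ v ∈ S, 0 ≤ v) (hAL : A ≤ L) {z : ℝ × ℝ}
    (h1 : 0 ≤ z.1) (h2 : z.1 ≤ A) (h3 : 0 ≤ z.2) (h4 : z.2 ≤ H) : z ∈ Shp L H A S := by
  refine Or.inl ⟨h1, by linarith, h3, h4, fun v hvS h => ?_⟩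
  have : (0 : ℝ) ≤ v := by exact_mod_cast hv v hvS
  linarith [h.1]

theorem mem_Shp_right {L H A T : ℝ} {S : List ℤ} (hv : ∀ v ∈ S, (v : ℝ) ≤ T)
    (hL : L = 2 * A + 2 * T + 1) (h0 : 0 ≤ A + 2 * T + 1) {z : ℝ × ℝ}
    (h1 : L - A ≤ z.1) (h2 : z.1 ≤ L) (h3 : 0 ≤ z.2) (h4 : z.2 ≤ H) : z ∈ Shp L H A S := by
  refine Or.inl ⟨by linarith, by linarith, h3, h4, fun v hvS h => ?_⟩
  have := hv v hvS
  linarith [h.2.1]

theorem mem_Inn_left {L H A : ℝ} {S : List ℤ} (hv : ∀ v ∈ S, 0 ≤ v) (hAL : A ≤ L) {z : ℝ × ℝ}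
    (h1 : 0 < z.1) (h2 : z.1 < A) (h3 : 0 < z.2) (h4 : z.2 < H) : z ∈ Inn L H A S := by
  refine Or.inl ⟨h1, by linarith, h3, h4, fun v hvS h => ?_⟩
  have : (0 : ℝ) ≤ v := by exact_mod_cast hv v hvS
  linarith [h.1]

theorem mem_Inn_right {L H A T : ℝ} {S : List ℤ} (hv : ∀ v ∈ S, (v : ℝ) ≤ T)
    (hL : L = 2 * A + 2 * T + 1) (h0 : 0 ≤ A + 2 * T + 1) {z : ℝ × ℝ}
    (h1 : L - A < z.1) (h2 : z.1 < L) (h3 : 0 < z.2) (h4 : z.2 < H) : z ∈ Inn L H A S := by
  refine Or.inl ⟨by linarith, by linarith, h3, h4, fun v hvS h => ?_⟩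
  have := hv v hvS
  linarith [h.2.1]

theorem Inn_subset_Shp' {L H A : ℝ} {S : List ℤ} (hA : 0 ≤ A) (hL : A + 1 ≤ L) (hH : 0 ≤ H) :
    Inn L H A S ⊆ Shp L H A S := by
  rintro z (⟨h1, h2, h3, h4, h5⟩ | ⟨h1, h2, h3, h4⟩)
  · exact Or.inl ⟨h1.le, h2.le, h3.le, h4.le,
      fun v hv h => h5 v hv ⟨h.1.le, h.2.1.le, h.2.2.le⟩⟩
  · by_cases h : z.2 ≤ H
    · exact Or.inl ⟨by linarith, by linarith, by linarith, h, fun v hv h' => by linarith [h'.2.2]⟩
    · push Not at h
      exact Or.inr ⟨h1.le, h2.le, h.le, h4.le⟩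

theorem Shp_box {L H A : ℝ} {S : List ℤ} (hA : 0 ≤ A) (hL : A + 1 ≤ L) (_hH : 0 ≤ H) {z : ℝ × ℝ}
    (hz : z ∈ Shp L H A S) : 0 ≤ z.1 ∧ z.1 ≤ L ∧ 0 ≤ z.2 ∧ z.2 ≤ H + 1 ∧ (z.1 < A → z.2 ≤ H) := by
  rcases hz with ⟨h1, h2, h3, h4, _⟩ | ⟨h1, h2, h3, h4⟩
  · exact ⟨h1, h2, h3, by linarith, fun _ => h4⟩
  · exact ⟨by linarith, by linarith, by linarith, h4, fun h => by linarith⟩

/-- The elementary computation behind `tilt`. -/
theorem tilt_aux {A T L M c s : ℝ} {u : ℝ × ℝ} (hT : 0 ≤ T) (_hM : 0 ≤ M)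
    (hA : 4 * T + M ^ 2 + 13 ≤ A) (hL : L = 2 * A + 2 * T + 1) (hc : 0 < c)
    (hcs : c ^ 2 + s ^ 2 = 1)
    (h1 : 0 ≤ u.2 ∧ u.2 ≤ M) (h2 : L * c + u.1 ≤ L + 2 * T) (h3 : 0 ≤ L * s + u.2 ∧ L * s + u.2 ≤ M)
    (h4 : 0 ≤ u.1) (b : ℝ) (hb0 : 0 ≤ b) (hb2 : b ≤ 2) :
    0 < (2 * T + 4 - u.1 + b * s) / c ∧ (2 * T + 4 - u.1 + b * s) / c < A := by
  have hc1 : c ≤ 1 := by nlinarith [sq_nonneg s]
  have hs1 : s ≤ 1 := by nlinarith [sq_nonneg c]
  have hs2 : -1 ≤ s := by nlinarith [sq_nonneg c]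
  have hLs : (L * s) ^ 2 ≤ M ^ 2 := by
    apply sq_le_sq'
    · linarith [h1.2, h3.1]
    · linarith [h1.1, h3.2]
  have hLpos : 0 < L := by nlinarith [sq_nonneg M]
  have hLM : M ^ 2 ≤ L := by nlinarith [sq_nonneg M]
  have h5 : 1 - c ≤ s ^ 2 := by nlinarith
  have h6 : L * (L * (1 - c)) ≤ L * 1 := by
    calc L * (L * (1 - c)) = L ^ 2 * (1 - c) := by ring
      _ ≤ L ^ 2 * s ^ 2 := mul_le_mul_of_nonneg_left h5 (sq_nonneg L)
      _ = (L * s) ^ 2 := by ring
      _ ≤ M ^ 2 := hLs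
      _ ≤ L := hLM
      _ = L * 1 := (mul_one L).symm
  have h7 : L * (1 - c) ≤ 1 := le_of_mul_le_mul_left h6 hLpos
  have h8 : -2 ≤ b * s := by nlinarith
  have h9 : b * s ≤ 2 := by nlinarith
  constructor
  · apply div_pos _ hc
    nlinarith
  · rw [div_lt_iff₀ hc]
    have h10 : A * (1 - c) ≤ 1 := by
      refine le_trans (mul_le_mul_of_nonneg_right ?_ (by linarith)) h7
      nlinarith [sq_nonneg M]
    nlinarith

/-- The conclusion of the analysis of one bar. -/
structure Upright (L T : ℝ) (K : ℕ) (θ : ℝ) (u : ℝ × ℝ) (X : Set (ℝ × ℝ)) (e c : ℝ) : Prop where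
  c_pos : 0 < c
  c_le : c ≤ 1
  e_nonneg : 0 ≤ e
  e_le : e + 2 / c ≤ 2 * K
  inter : ∀ y, e < y → y < e + 2 / c → ((2 * T + 4, y) : ℝ × ℝ) ∈ interior (move θ u '' X)
  one : c = 1 → ∃ (x : ℝ) (f : Bool), 0 ≤ x ∧ x ≤ 2 * T ∧ ∀ z, move θ u z =
    if f then (x + L - z.1, e + 2 - z.2) else (x + z.1, e + z.2)

theorem tilt {K : ℕ} {A T L : ℝ} {S : List ℤ} {T' : ℤ} (hT : 0 ≤ T)
    (hA : 4 * T + (2 * K + 1) ^ 2 + 13 ≤ A) (hL : L = 2 * A + 2 * T + 1)
    (hS0 : ∀ v ∈ S, 0 ≤ v) (hST : ∀ v ∈ S, (v : ℝ) ≤ T) (θ : ℝ) (u : ℝ × ℝ)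
    (h : move θ u '' Shp L 2 A S ⊆ Shp (L + 2 * T) (2 * K) A [T']) :
    ∃ e c, Upright L T K θ u (Shp L 2 A S) e c := by
  have hM : (0 : ℝ) ≤ 2 * K + 1 := by positivity
  have hAp : 0 < A := by nlinarith [sq_nonneg (2 * (K : ℝ) + 1)]
  have hAL : A + 1 ≤ L := by linarith
  have hcs : Real.cos θ ^ 2 + Real.sin θ ^ 2 = 1 := by
    rw [add_comm]
    exact Real.sin_sq_add_cos_sq θ
  have hbox : ∀ z ∈ Shp L 2 A S, 0 ≤ (move θ u z).1 ∧ (move θ u z).1 ≤ L + 2 * T ∧
      0 ≤ (move θ u z).2 ∧ (move θ u z).2 ≤ 2 * K + 1 ∧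
      ((move θ u z).1 < A → (move θ u z).2 ≤ 2 * K) := by
    intro z hz
    have := h (Set.mem_image_of_mem _ hz)
    exact Shp_box hAp.le (by linarith) (by positivity) this
  have c00 := hbox (0, 0) (mem_Shp_left hS0 (by linarith) le_rfl hAp.le le_rfl (by norm_num))
  have c02 := hbox (0, 2) (mem_Shp_left hS0 (by linarith) le_rfl hAp.le (by norm_num) le_rfl)
  have cL0 := hbox (L, 0) (mem_Shp_right hST hL (by linarith) (by simp only; linarith) le_rfl
    le_rfl (by norm_num))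
  have cL2 := hbox (L, 2) (mem_Shp_right hST hL (by linarith) (by simp only; linarith) le_rfl
    (by norm_num) le_rfl)
  have hX : 2 * T + 4 < A := by nlinarith [sq_nonneg (2 * (K : ℝ) + 1)]
  have hcos : Real.cos θ ≠ 0 := by
    intro h0
    have hs : Real.sin θ ^ 2 = 1 := by rw [h0] at hcs; linarith
    have e1 : (move θ u (L, 0)).2 - (move θ u (0, 0)).2 = L * Real.sin θ := by
      unfold move
      simp only
      ring
    have e2 : (L * Real.sin θ) ^ 2 ≤ (2 * K + 1) ^ 2 := by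
      rw [← e1]
      apply sq_le_sq'
      · linarith [c00.2.2.2.1, cL0.2.2.1]
      · linarith [c00.2.2.1, cL0.2.2.2.1]
    rw [mul_pow, hs, mul_one] at e2
    have e3 : (2 * (K : ℝ) + 1) ^ 2 < L := by linarith
    have e4 : (1 : ℝ) ≤ (2 * (K : ℝ) + 1) ^ 2 := by nlinarith [(Nat.cast_nonneg K : (0 : ℝ) ≤ K)]
    nlinarith
  rcases lt_or_gt_of_ne hcos with hneg | hpos
  · -- upside down
    set u' : ℝ × ℝ := move θ u (L, 2) with hu'
    have e1 : u'.1 = Real.cos θ * L - Real.sin θ * 2 + u.1 := rfl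
    have e2 : u'.2 = Real.sin θ * L + Real.cos θ * 2 + u.2 := rfl
    have hm : ∀ a b : ℝ, move θ u (L - a, 2 - b) =
        (a * (-Real.cos θ) - b * (-Real.sin θ) + u'.1, a * (-Real.sin θ) + b * (-Real.cos θ) + u'.2) := by
      intro a b
      rw [e1, e2]
      unfold move
      refine Prod.ext ?_ ?_ <;> simp only <;> ring
    have key := fun b hb0 hb2 => tilt_aux (A := A) (T := T) (L := L) (M := 2 * K + 1)
      (c := -Real.cos θ) (s := -Real.sin θ) (u := u') hT hM hA hL (by linarith)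
      (by rw [neg_sq, neg_sq]; exact hcs)
      ⟨cL2.2.2.1, cL2.2.2.2.1⟩
      (by
        have e5 := hm L 0
        rw [sub_self, sub_zero] at e5
        have := c02.2.1
        rw [e5] at this
        simp only at this
        linarith)
      (by
        have e5 := hm L 0
        rw [sub_self, sub_zero] at e5
        have h7 := c02.2.2.1
        have h8 := c02.2.2.2.1
        rw [e5] at h7 h8
        simp only at h7 h8
        constructor <;> linarith)
      cL2.1 b hb0 hb2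
    have hcpos : 0 < -Real.cos θ := by linarith
    have hpt : ∀ b : ℝ, move θ u (L - (2 * T + 4 - u'.1 + b * (-Real.sin θ)) / (-Real.cos θ), 2 - b) =
        (2 * T + 4, u'.2 + (2 * T + 4 - u'.1) * (-Real.sin θ) / (-Real.cos θ) +
          b / (-Real.cos θ)) := by
      intro b
      rw [hm]
      have hne : (-Real.cos θ) ≠ 0 := hcpos.ne'
      refine Prod.ext ?_ ?_
      · simp only
        field_simp
        ring
      · simp only
        have hcs' : (-Real.cos θ) ^ 2 = 1 - (-Real.sin θ) ^ 2 := by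
          rw [neg_sq, neg_sq]
          linarith
        field_simp
        linear_combination (-b) * hcs'
    refine ⟨u'.2 + (2 * T + 4 - u'.1) * (-Real.sin θ) / (-Real.cos θ), -Real.cos θ,
      hcpos, by linarith [Real.neg_one_le_cos θ], ?_, ?_, ?_, ?_⟩
    · have h1 := key 0 le_rfl (by norm_num)
      have h2 := hbox _ (mem_Shp_right (z := (L - (2 * T + 4 - u'.1 + 0 * (-Real.sin θ)) /
        (-Real.cos θ), 2 - 0)) hST hL (by linarith) (by simp only; linarith [h1.2])
        (by simp only; linarith [h1.1]) (by norm_num) (by norm_num))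
      rw [hpt 0] at h2
      simpa using h2.2.2.1
    · have h1 := key 2 (by norm_num) le_rfl
      have h2 := hbox _ (mem_Shp_right (z := (L - (2 * T + 4 - u'.1 + 2 * (-Real.sin θ)) /
        (-Real.cos θ), 2 - 2)) hST hL (by linarith) (by simp only; linarith [h1.2])
        (by simp only; linarith [h1.1]) (by norm_num) (by norm_num))
      rw [hpt 2] at h2
      exact h2.2.2.2.2 hX
    · intro y hy1 hy2
      set b : ℝ := (y - (u'.2 + (2 * T + 4 - u'.1) * (-Real.sin θ) / (-Real.cos θ))) *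
        (-Real.cos θ) with hb
      have hb0 : 0 < b := mul_pos (by linarith) hcpos
      have hb2 : b < 2 := by
        rw [hb]
        have : y - (u'.2 + (2 * T + 4 - u'.1) * (-Real.sin θ) / (-Real.cos θ)) <
          2 / (-Real.cos θ) := by linarith
        rwa [lt_div_iff₀ hcpos] at this
      have h1 := key b hb0.le hb2.le
      have h2 := image_mem_interior (θ := θ) (u := u) (isOpen_Inn L 2 A S)
        (Inn_subset_Shp' hAp.le hAL (by norm_num)) (mem_Inn_right
        (z := (L - (2 * T + 4 - u'.1 + b * (-Real.sin θ)) / (-Real.cos θ), 2 - b)) hST hL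
        (by linarith) (by simp only; linarith [h1.2]) (by simp only; linarith [h1.1])
        (by simp only; linarith) (by simp only; linarith))
      rw [hpt b] at h2
      have h3 : u'.2 + (2 * T + 4 - u'.1) * (-Real.sin θ) / (-Real.cos θ) +
          b / (-Real.cos θ) = y := by
        rw [hb, mul_div_cancel_right₀ _ hcpos.ne']
        ring
      rwa [h3] at h2
    · intro h1
      have hc1 : Real.cos θ = -1 := by linarith
      have hs0 : Real.sin θ = 0 := by
        have : Real.sin θ ^ 2 = 0 := by rw [hc1] at hcs; linarith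
        exact pow_eq_zero_iff (two_ne_zero) |>.mp this
      refine ⟨u.1 - L, true, ?_, ?_, fun z => ?_⟩
      · have := cL2.1
        rw [e1, hc1, hs0] at this
        linarith
      · have := c00.2.1
        unfold move at this
        simp only [hc1, hs0] at this
        linarith
      · rw [e2, hc1, hs0]
        unfold move
        rw [hc1, hs0]
        simp only [if_true]
        refine Prod.ext ?_ ?_ <;> simp only <;> ring
  · have hm : ∀ a b : ℝ, move θ u (a, b) =
        (a * Real.cos θ - b * Real.sin θ + u.1, a * Real.sin θ + b * Real.cos θ + u.2) := by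
      intro a b
      unfold move
      refine Prod.ext ?_ ?_ <;> simp only <;> ring
    have e0 : move θ u (0, 0) = u := by
      rw [hm]
      refine Prod.ext ?_ ?_ <;> simp
    rw [e0] at c00
    have key := fun b hb0 hb2 => tilt_aux (A := A) (T := T) (L := L) (M := 2 * K + 1)
      (c := Real.cos θ) (s := Real.sin θ) (u := u) hT hM hA hL hpos hcs
      ⟨c00.2.2.1, c00.2.2.2.1⟩
      (by
        have := cL0.2.1
        rw [hm] at this
        simp only at this
        linarith)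
      (by
        have h7 := cL0.2.2.1
        have h8 := cL0.2.2.2.1
        rw [hm] at h7 h8
        simp only at h7 h8
        constructor <;> linarith)
      c00.1 b hb0 hb2
    have hpt : ∀ b : ℝ, move θ u ((2 * T + 4 - u.1 + b * Real.sin θ) / Real.cos θ, b) =
        (2 * T + 4, u.2 + (2 * T + 4 - u.1) * Real.sin θ / Real.cos θ + b / Real.cos θ) := by
      intro b
      rw [hm]
      refine Prod.ext ?_ ?_
      · simp only
        field_simp
        ring
      · simp only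
        field_simp
        linear_combination b * hcs
    refine ⟨u.2 + (2 * T + 4 - u.1) * Real.sin θ / Real.cos θ, Real.cos θ,
      hpos, Real.cos_le_one θ, ?_, ?_, ?_, ?_⟩
    · have h1 := key 0 le_rfl (by norm_num)
      have h2 := hbox _ (mem_Shp_left (z := ((2 * T + 4 - u.1 + 0 * Real.sin θ) /
        Real.cos θ, 0)) hS0 (by linarith) h1.1.le h1.2.le le_rfl (by norm_num))
      rw [hpt 0] at h2
      simpa using h2.2.2.1
    · have h1 := key 2 (by norm_num) le_rfl
      have h2 := hbox _ (mem_Shp_left (z := ((2 * T + 4 - u.1 + 2 * Real.sin θ) /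
        Real.cos θ, 2)) hS0 (by linarith) h1.1.le h1.2.le (by norm_num) le_rfl)
      rw [hpt 2] at h2
      exact h2.2.2.2.2 hX
    · intro y hy1 hy2
      set b : ℝ := (y - (u.2 + (2 * T + 4 - u.1) * Real.sin θ / Real.cos θ)) * Real.cos θ with hb
      have hb0 : 0 < b := mul_pos (by linarith) hpos
      have hb2 : b < 2 := by
        rw [hb]
        have : y - (u.2 + (2 * T + 4 - u.1) * Real.sin θ / Real.cos θ) < 2 / Real.cos θ := by
          linarith
        rwa [lt_div_iff₀ hpos] at this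
      have h1 := key b hb0.le hb2.le
      have h2 := image_mem_interior (θ := θ) (u := u) (isOpen_Inn L 2 A S)
        (Inn_subset_Shp' hAp.le hAL (by norm_num)) (mem_Inn_left
        (z := ((2 * T + 4 - u.1 + b * Real.sin θ) / Real.cos θ, b)) hS0 (by linarith)
        h1.1 h1.2 hb0 hb2)
      rw [hpt b] at h2
      have h3 : u.2 + (2 * T + 4 - u.1) * Real.sin θ / Real.cos θ + b / Real.cos θ = y := by
        rw [hb, mul_div_cancel_right₀ _ hpos.ne']
        ring
      rwa [h3] at h2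
    · intro h1
      have hs0 : Real.sin θ = 0 := by
        have : Real.sin θ ^ 2 = 0 := by rw [h1] at hcs; linarith
        exact pow_eq_zero_iff (two_ne_zero) |>.mp this
      refine ⟨u.1, false, c00.1, ?_, fun z => ?_⟩
      · have := cL0.2.1
        rw [hm, h1, hs0] at this
        simp only at this
        linarith
      · rw [h1, hs0]
        unfold move
        rw [h1, hs0]
        simp only [Bool.false_eq_true, if_false]
        refine Prod.ext ?_ ?_ <;> simp only <;> ring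

/-! ### Intervals of length at least two -/

theorem rows_aux {K : ℕ} (e c : Fin K → ℝ) (hc : ∀ i, 0 < c i) (hc1 : ∀ i, c i ≤ 1)
    (he : ∀ i, 0 ≤ e i) (hle : ∀ i, e i + 2 / c i ≤ 2 * K)
    (hdis : ∀ i j, i ≠ j → ∀ y, e i < y → y < e i + 2 / c i → e j < y → ¬ y < e j + 2 / c j) :
    (∀ i, c i = 1) ∧ ∃ r : Fin K ≃ Fin K, ∀ i, e i = 2 * (r i : ℕ) := by
  have hl : ∀ i, 2 ≤ 2 / c i := by
    intro i
    rw [le_div_iff₀ (hc i)]
    linarith [hc1 i]
  have hord : ∀ i j, i ≠ j → e i ≤ e j → e i + 2 / c i ≤ e j := by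
    intro i j hij hle'
    by_contra hlt
    push Not at hlt
    have h1 : e j < min (e i + 2 / c i) (e j + 2 / c j) := lt_min hlt (by linarith [hl j])
    obtain ⟨y, hy1, hy2⟩ := exists_between h1
    have h2 := min_le_left (e i + 2 / c i) (e j + 2 / c j)
    have h3 := min_le_right (e i + 2 / c i) (e j + 2 / c j)
    exact hdis i j hij y (by linarith) (by linarith) hy1 (by linarith)
  set σ := Tuple.sort e with hσ
  have hmono : Monotone (e ∘ σ) := Tuple.monotone_sort e
  have hstep : ∀ i j : Fin K, i < j → e (σ i) + 2 / c (σ i) ≤ e (σ j) := by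
    intro i j hij
    refine hord _ _ (fun h => hij.ne (σ.injective h)) (hmono hij.le)
  have hlow : ∀ n : ℕ, ∀ hn : n < K, (2 * n : ℝ) ≤ e (σ ⟨n, hn⟩) := by
    intro n
    induction n with
    | zero =>
      intro hn
      have := he (σ ⟨0, hn⟩)
      simpa using this
    | succ n ih =>
      intro hn
      have h1 := ih (by omega)
      have h2 := hstep ⟨n, by omega⟩ ⟨n + 1, hn⟩ (by simp)
      have h3 := hl (σ ⟨n, by omega⟩)
      push_cast
      linarith
  have hupp : ∀ m : ℕ, ∀ n : ℕ, ∀ hn : n < K, n + m + 1 = K →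
      e (σ ⟨n, hn⟩) + 2 / c (σ ⟨n, hn⟩) ≤ 2 * (n + 1) := by
    intro m
    induction m with
    | zero =>
      intro n hn hK
      have h1 := hle (σ ⟨n, hn⟩)
      have h2 : (K : ℝ) = n + 1 := by
        rw [← hK]
        push_cast
        ring
      rw [h2] at h1
      exact h1
    | succ m ih =>
      intro n hn hK
      have h1 := ih (n + 1) (by omega) (by omega)
      have h2 := hstep ⟨n, hn⟩ ⟨n + 1, by omega⟩ (by simp)
      have h3 := hl (σ ⟨n + 1, by omega⟩)
      push_cast at h1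
      linarith
  have hboth : ∀ i : Fin K, e (σ i) = 2 * (i : ℕ) ∧ 2 / c (σ i) = 2 := by
    intro i
    have h1 := hlow i i.2
    have h2 := hupp (K - 1 - i) i i.2 (by omega)
    have h3 := hl (σ i)
    have e1 : (⟨(i : ℕ), i.2⟩ : Fin K) = i := rfl
    rw [e1] at h1 h2
    constructor <;> linarith
  refine ⟨fun i => ?_, σ.symm, fun i => ?_⟩
  · have h1 := (hboth (σ.symm i)).2
    rw [Equiv.apply_symm_apply] at h1
    have h2 := hc i
    field_simp at h1
    linarith
  · have h1 := (hboth (σ.symm i)).1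
    rw [Equiv.apply_symm_apply] at h1
    exact h1

/-- The bars are upright and fill the rows. -/
theorem rows {K : ℕ} {A T L : ℝ} {S : Fin K → List ℤ} {T' : ℤ} (hT : 0 ≤ T)
    (hA : 4 * T + (2 * K + 1) ^ 2 + 13 ≤ A) (hL : L = 2 * A + 2 * T + 1)
    (hS0 : ∀ i, ∀ v ∈ S i, 0 ≤ v) (hST : ∀ i, ∀ v ∈ S i, (v : ℝ) ≤ T) (θ : Fin K → ℝ)
    (u : Fin K → ℝ × ℝ)
    (h : Placed (Shp (L + 2 * T) (2 * K) A [T']) (fun i => Shp L 2 A (S i)) θ u) :
    ∃ (r : Fin K ≃ Fin K) (x : Fin K → ℝ) (f : Fin K → Bool), (∀ i, 0 ≤ x i ∧ x i ≤ 2 * T) ∧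
      ∀ i z, move (θ i) (u i) z = if f i then (x i + L - z.1, 2 * (r i : ℕ) + 2 - z.2)
        else (x i + z.1, 2 * (r i : ℕ) + z.2) := by
  have h1 : ∀ i, ∃ e c, Upright L T K (θ i) (u i) (Shp L 2 A (S i)) e c := fun i =>
    tilt hT hA hL (hS0 i) (hST i) (θ i) (u i) (h.1 i)
  choose e c hec using h1
  obtain ⟨hc, r, hr⟩ := rows_aux e c (fun i => (hec i).c_pos) (fun i => (hec i).c_le)
    (fun i => (hec i).e_nonneg) (fun i => (hec i).e_le) (by
      intro i j hij y h1 h2 h3 h4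
      have := h.2 i j hij
      exact Set.disjoint_left.mp this ((hec i).inter y h1 h2) ((hec j).inter y h3 h4))
  have h2 := fun i => (hec i).one (hc i)
  choose x f hx0 hx1 hm using h2
  refine ⟨r, x, f, fun i => ⟨hx0 i, hx1 i⟩, fun i z => ?_⟩
  rw [hm i z, hr i]

end Pool.Agent.Lib.MP_858715_lc
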